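import Mathlib

/-!
# Chains of lists, boundary, and cone-type chain maps
-/

namespace Pool.Agent.IndexGap

open Finsupp

variable {R : Type} [CommRing R] {α β : Type}

/-- chains: formal linear combinations of lists -/
abbrev Ch (R : Type) [CommRing R] (α : Type) := List α →₀ R

/-- prepend an element -/
noncomputable def pre (a : α) : Ch R α →ₗ[R] Ch R α := Finsupp.lmapDomain R R (List.cons a)

@[simp] theorem pre_single (a : α) (l : List α) (r : R) :
    pre a (single l r : Ch R α) = single (a :: l) r := by
  simp [pre]

/-- boundary of a list -/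
noncomputable def bdL (R : Type) [CommRing R] : List α → Ch R α
  | [] => 0
  | a :: l => single l 1 - pre a (bdL R l)

/-- linear extension -/
noncomputable def ext {M : Type} [AddCommGroup M] [Module R M] (f : List α → M) :
    Ch R α →ₗ[R] M := Finsupp.linearCombination R f

@[simp] theorem ext_single {M : Type} [AddCommGroup M] [Module R M] (f : List α → M)
    (l : List α) (r : R) : ext f (single l r) = r • f l := by
  simp [ext]

/-- boundary -/
noncomputable def bd : Ch R α →ₗ[R] Ch R α := ext (bdL R)

@[simp] theorem bd_single (l : List α) (r : R) : bd (single l r : Ch R α) = r • bdL R l := by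
  simp [bd]

@[simp] theorem bdL_nil : bdL R ([] : List α) = 0 := rfl

theorem bdL_cons (a : α) (l : List α) : bdL R (a :: l) = single l 1 - pre a (bdL R l) := rfl

theorem hom_ext {M : Type} [AddCommGroup M] [Module R M] {f g : Ch R α →ₗ[R] M}
    (h : ∀ l, f (single l 1) = g (single l 1)) : f = g := by
  apply Finsupp.lhom_ext
  intro l r
  have h1 : (single l r : Ch R α) = r • single l 1 := by simp
  rw [h1, map_smul, map_smul, h]

theorem bd_pre (a : α) (c : Ch R α) : bd (pre a c) = c - pre a (bd c) := by
  have : (bd ∘ₗ pre a : Ch R α →ₗ[R] Ch R α) = LinearMap.id - pre a ∘ₗ bd := by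
    apply hom_ext
    intro l
    simp [bdL_cons]
  exact LinearMap.congr_fun this c

theorem bd_bdL (l : List α) : bd (bdL R l) = 0 := by
  induction l with
  | nil => simp
  | cons a l ih =>
    rw [bdL_cons, map_sub, bd_pre, ih]
    simp

theorem bd_bd (c : Ch R α) : bd (bd c) = 0 := by
  have : (bd ∘ₗ bd : Ch R α →ₗ[R] Ch R α) = 0 := by
    apply hom_ext
    intro l
    simp [bd_bdL]
  exact LinearMap.congr_fun this c

/-- apply a function to all vertices -/
noncomputable def act (f : α → β) : Ch R α →ₗ[R] Ch R β := Finsupp.lmapDomain R R (List.map f)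

@[simp] theorem act_single (f : α → β) (l : List α) (r : R) :
    act f (single l r : Ch R α) = single (l.map f) r := by
  simp [act]

theorem act_pre (f : α → β) (a : α) (c : Ch R α) : act f (pre a c) = pre (f a) (act f c) := by
  have : (act f ∘ₗ pre a : Ch R α →ₗ[R] Ch R β) = pre (f a) ∘ₗ act f := by
    apply hom_ext
    intro l
    simp
  exact LinearMap.congr_fun this c

theorem act_bdL (f : α → β) (l : List α) : act f (bdL R l) = bdL R (l.map f) := by
  induction l with
  | nil => simp
  | cons a l ih =>
    rw [bdL_cons, map_sub, act_pre, ih, List.map_cons, bdL_cons]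
    simp

theorem act_bd (f : α → β) (c : Ch R α) : act f (bd c) = bd (act f c) := by
  have : (act f ∘ₗ bd : Ch R α →ₗ[R] Ch R β) = bd ∘ₗ act f := by
    apply hom_ext
    intro l
    simp [act_bdL]
  exact LinearMap.congr_fun this c

/-- explicit form of the boundary -/
theorem bdL_eq_sum (l : List α) :
    bdL R l = ∑ i ∈ Finset.range l.length, ((-1 : R) ^ i) • single (l.eraseIdx i) 1 := by
  induction l with
  | nil => simp
  | cons a l ih =>
    rw [bdL_cons, List.length_cons, Finset.sum_range_succ', ih, map_sum]
    simp only [map_smul, pre_single, List.eraseIdx_cons_succ, List.eraseIdx_cons_zero, pow_zero,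
      one_smul, pow_succ]
    rw [sub_eq_add_neg, add_comm, ← Finset.sum_neg_distrib]
    congr 1
    apply Finset.sum_congr rfl
    intro i _
    simp

/-- The cone-type chain map with apex function `A`. -/
noncomputable def S (R : Type) [CommRing R] (A : List α → β) (l : List α) : Ch R β :=
  if l = [] then single [] 1
  else pre (A l) (∑ i : Fin l.length, ((-1 : R) ^ (i : ℕ)) • S R A (l.eraseIdx i))
termination_by l.length
decreasing_by
  rw [List.length_eraseIdx_of_lt i.2]
  have := i.2
  omega

@[simp] theorem S_nil (A : List α → β) : S R A [] = single [] 1 := by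
  rw [S]; simp

theorem S_ne (A : List α → β) (l : List α) (hl : l ≠ []) :
    S R A l = pre (A l) (ext (S R A) (bdL R l)) := by
  rw [S, if_neg hl]
  congr 1
  rw [bdL_eq_sum, map_sum, ← Fin.sum_univ_eq_sum_range
    (fun i => ext (S R A) (((-1 : R) ^ i) • single (l.eraseIdx i) 1))]
  apply Finset.sum_congr rfl
  intro i _
  simp

theorem bd_S (A : List α → β) (l : List α) : bd (S R A l) = ext (S R A) (bdL R l) := by
  induction hn : l.length using Nat.strong_induction_on generalizing l with
  | _ n ih =>
    by_cases hl : l = []
    · subst hl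
      simp
    · rw [S_ne A l hl, bd_pre]
      have h2 : bd (ext (S R A) (bdL R l)) = 0 := by
        have h3 : bd (ext (S R A) (bdL R l)) = ext (S R A) (bd (bdL R l)) := by
          rw [bdL_eq_sum l]
          simp only [map_sum, map_smul]
          apply Finset.sum_congr rfl
          intro i hi
          rw [Finset.mem_range] at hi
          congr 1
          rw [ext_single, one_smul, bd_single, one_smul]
          apply ih (l.eraseIdx i).length _ _ rfl
          rw [List.length_eraseIdx_of_lt hi]
          omega
        rw [h3, bd_bdL, map_zero]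
      rw [h2, map_zero, sub_zero]

theorem bd_extS (A : List α → β) (c : Ch R α) : bd (ext (S R A) c) = ext (S R A) (bd c) := by
  have : (bd ∘ₗ ext (S R A) : Ch R α →ₗ[R] Ch R β) = ext (S R A) ∘ₗ bd := by
    apply hom_ext
    intro l
    simp [bd_S]
  exact LinearMap.congr_fun this c

theorem S_map {α' β' : Type} (A : List α → β) (A' : List α' → β') (f : α → α') (f' : β → β')
    (h : ∀ l : List α, l ≠ [] → A' (l.map f) = f' (A l)) (l : List α) :
    S R A' (l.map f) = act f' (S R A l) := by
  induction hn : l.length using Nat.strong_induction_on generalizing l with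
  | _ n ih =>
    by_cases hl : l = []
    · subst hl
      simp
    · rw [S_ne A l hl, S_ne A' (l.map f) (by simpa using hl), h l hl, act_pre]
      congr 1
      rw [bdL_eq_sum, bdL_eq_sum]
      simp only [map_sum, map_smul, ext_single, one_smul, List.length_map]
      apply Finset.sum_congr rfl
      intro i hi
      rw [Finset.mem_range] at hi
      congr 1
      rw [List.eraseIdx_map]
      apply ih (l.eraseIdx i).length _ _ rfl
      rw [List.length_eraseIdx_of_lt hi]
      omega

theorem extS_act {α' β' : Type} (A : List α → β) (A' : List α' → β') (f : α → α') (f' : β → β')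
    (h : ∀ l : List α, l ≠ [] → A' (l.map f) = f' (A l)) (c : Ch R α) :
    ext (S R A') (act f c) = act f' (ext (S R A) c) := by
  have : (ext (S R A') ∘ₗ act f : Ch R α →ₗ[R] Ch R β') = act f' ∘ₗ ext (S R A) := by
    apply hom_ext
    intro l
    simp [S_map A A' f f' h]
  exact LinearMap.congr_fun this c

/-- the shape of the lists occurring in `S A l` -/
inductive Flag (A : List α → β) : List α → List β → Prop
  | nil : Flag A [] []
  | cons (l : List α) (i : ℕ) (hi : i < l.length) (m : List β) (h : Flag A (l.eraseIdx i) m) :
      Flag A l (A l :: m)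

/-- all lists in the chain satisfy the predicate -/
def AllCh (P : List α → Prop) (c : Ch R α) : Prop := ∀ l ∈ c.support, P l

theorem AllCh.zero (P : List α → Prop) : AllCh P (0 : Ch R α) := by
  intro l hl
  simp at hl

theorem AllCh.add {P : List α → Prop} {c d : Ch R α} (hc : AllCh P c) (hd : AllCh P d) :
    AllCh P (c + d) := by
  classical
  intro l hl
  rcases Finset.mem_union.1 (Finsupp.support_add hl) with h | h
  · exact hc l h
  · exact hd l h

theorem AllCh.smul {P : List α → Prop} {c : Ch R α} (r : R) (hc : AllCh P c) :
    AllCh P (r • c) := fun l hl => hc l (Finsupp.support_smul hl)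

theorem AllCh.neg {P : List α → Prop} {c : Ch R α} (hc : AllCh P c) :
    AllCh P (-c) := by
  intro l hl
  rw [Finsupp.support_neg] at hl
  exact hc l hl

theorem AllCh.sub {P : List α → Prop} {c d : Ch R α} (hc : AllCh P c) (hd : AllCh P d) :
    AllCh P (c - d) := by
  rw [sub_eq_add_neg]
  exact hc.add hd.neg

theorem AllCh.sum {ι : Type} {P : List α → Prop} (s : Finset ι) (c : ι → Ch R α)
    (h : ∀ i ∈ s, AllCh P (c i)) : AllCh P (∑ i ∈ s, c i) := by
  classical
  induction s using Finset.induction_on with
  | empty => simpa using AllCh.zero P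
  | insert a s ha ih =>
    rw [Finset.sum_insert ha]
    exact (h a (Finset.mem_insert_self _ _)).add
      (ih (fun i hi => h i (Finset.mem_insert_of_mem hi)))

theorem AllCh.single {P : List α → Prop} {l : List α} (r : R) (hl : P l) :
    AllCh P (single l r : Ch R α) := by
  classical
  intro m hm
  have := Finsupp.support_single_subset hm
  rw [Finset.mem_singleton] at this
  rwa [this]

theorem AllCh.mono {P P' : List α → Prop} {c : Ch R α} (hc : AllCh P c) (h : ∀ l, P l → P' l) :
    AllCh P' c := fun l hl => h l (hc l hl)

theorem AllCh.map {P : List α → Prop} {P' : List β → Prop} {c : Ch R α} (f : List α → List β)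
    (hc : AllCh P c) (h : ∀ l, P l → P' (f l)) :
    AllCh P' (Finsupp.lmapDomain R R f c) := by
  classical
  intro m hm
  rw [Finsupp.lmapDomain_apply] at hm
  have := Finsupp.mapDomain_support hm
  rw [Finset.mem_image] at this
  obtain ⟨l, hl, rfl⟩ := this
  exact h l (hc l hl)

theorem AllCh.act {P : List α → Prop} {P' : List β → Prop} {c : Ch R α} (f : α → β)
    (hc : AllCh P c) (h : ∀ l, P l → P' (l.map f)) : AllCh P' (act f c) :=
  hc.map _ h

theorem AllCh.pre {P P' : List α → Prop} {c : Ch R α} (a : α)
    (hc : AllCh P c) (h : ∀ l, P l → P' (a :: l)) : AllCh P' (pre a c) :=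
  hc.map _ h

theorem AllCh.ext {P : List α → Prop} {P' : List β → Prop} {c : Ch R α}
    (F : List α → Ch R β) (hc : AllCh P c) (h : ∀ l, P l → AllCh P' (F l)) :
    AllCh P' (ext F c) := by
  rw [IndexGap.ext, Finsupp.linearCombination_apply, Finsupp.sum]
  exact AllCh.sum _ _ (fun l hl => (h l (hc l hl)).smul _)

theorem flag_S (A : List α → β) (l : List α) : AllCh (Flag A l) (S R A l) := by
  induction hn : l.length using Nat.strong_induction_on generalizing l with
  | _ n ih =>
    by_cases hl : l = []
    · subst hl
      rw [S_nil]
      exact AllCh.single _ Flag.nil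
    · rw [S_ne A l hl]
      refine AllCh.pre (P := fun m => ∃ i, i < l.length ∧ Flag A (l.eraseIdx i) m)
        (P' := Flag A l) (A l) ?_ ?_
      · rw [bdL_eq_sum]
        simp only [map_sum, map_smul, ext_single, one_smul]
        apply AllCh.sum
        intro i hi
        rw [Finset.mem_range] at hi
        apply AllCh.smul
        have : (l.eraseIdx i).length < n := by
          rw [List.length_eraseIdx_of_lt hi]
          omega
        exact (ih _ this _ rfl).mono (fun m hm => ⟨i, hi, hm⟩)
      · rintro m ⟨i, hi, hm⟩
        exact Flag.cons l i hi m hm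

theorem Flag.length_eq {A : List α → β} {l : List α} {m : List β} (h : Flag A l m) :
    m.length = l.length := by
  induction h with
  | nil => rfl
  | cons l i hi m h ih =>
    rw [List.length_cons, ih, List.length_eraseIdx_of_lt hi]
    omega

end Pool.Agent.IndexGap
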