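import Mathlib
import Pool.Agent.Lib.MP_6f03fc_co.Chain

/-!
# Cochains on lists of elements of `ZMod p`
-/

namespace Pool.Agent.IndexGap

open Finsupp

variable {p : ℕ} [hp : Fact p.Prime]

/-- translate all entries -/
def tr (t : ZMod p) (l : List (ZMod p)) : List (ZMod p) := l.map (· + t)

theorem tr_tr (s t : ZMod p) (l : List (ZMod p)) : tr s (tr t l) = tr (t + s) l := by
  simp only [tr, List.map_map]
  congr 1
  funext x
  simp [add_assoc]

theorem tr_zero (l : List (ZMod p)) : tr 0 l = l := by
  simp [tr]

/-- coboundary -/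
noncomputable def cob (ω : List (ZMod p) → ZMod p) (l : List (ZMod p)) : ZMod p :=
  ext ω (bdL (ZMod p) l)

/-- first contraction -/
def Ec (ω : List (ZMod p) → ZMod p) : List (ZMod p) → ZMod p
  | [] => 0
  | a :: m => ∑ j ∈ Finset.range a.val, ω (tr ((j : ZMod p) - a) (a :: m))

/-- second contraction -/
def Oc (ω : List (ZMod p) → ZMod p) : List (ZMod p) → ZMod p
  | [] => 0
  | a :: m => if a = 0 then ω (a :: m) else 0

/-- the cochains -/
noncomputable def eta : ℕ → List (ZMod p) → ZMod p
  | 0 => fun l => if l = [] then 1 else 0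
  | (i + 1) => if Even i then Ec (cob (eta i)) else Oc (cob (eta i))

theorem ext_act (ω : List (ZMod p) → ZMod p) {α : Type} (f : α → ZMod p) (c : Ch (ZMod p) α) :
    ext ω (act f c) = ext (fun l => ω (l.map f)) c := by
  have : (ext ω ∘ₗ act f : Ch (ZMod p) α →ₗ[ZMod p] ZMod p) = ext (fun l => ω (l.map f)) := by
    apply hom_ext
    intro l
    simp
  exact LinearMap.congr_fun this c

theorem ext_congr {α M : Type} [AddCommGroup M] [Module (ZMod p) M] {f g : List α → M}
    (h : ∀ l, f l = g l) (c : Ch (ZMod p) α) : ext f c = ext g c := by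
  have : f = g := funext h
  rw [this]

theorem ext_add_fun {α M : Type} [AddCommGroup M] [Module (ZMod p) M] (f g : List α → M)
    (c : Ch (ZMod p) α) : ext (fun l => f l + g l) c = ext f c + ext g c := by
  have : (ext (fun l => f l + g l) : Ch (ZMod p) α →ₗ[ZMod p] M) = ext f + ext g := by
    apply hom_ext
    intro l
    simp
  exact LinearMap.congr_fun this c

theorem ext_sub_fun {α M : Type} [AddCommGroup M] [Module (ZMod p) M] (f g : List α → M)
    (c : Ch (ZMod p) α) : ext (fun l => f l - g l) c = ext f c - ext g c := by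
  have : (ext (fun l => f l - g l) : Ch (ZMod p) α →ₗ[ZMod p] M) = ext f - ext g := by
    apply hom_ext
    intro l
    simp
  exact LinearMap.congr_fun this c

theorem ext_sum_fun {α M ι : Type} [AddCommGroup M] [Module (ZMod p) M] (s : Finset ι)
    (f : ι → List α → M) (c : Ch (ZMod p) α) :
    ext (fun l => ∑ i ∈ s, f i l) c = ∑ i ∈ s, ext (f i) c := by
  have : (ext (fun l => ∑ i ∈ s, f i l) : Ch (ZMod p) α →ₗ[ZMod p] M) = ∑ i ∈ s, ext (f i) := by
    apply hom_ext
    intro l
    simp
  rw [this]
  simp

theorem ext_zero_fun {α M : Type} [AddCommGroup M] [Module (ZMod p) M]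
    (c : Ch (ZMod p) α) : ext (fun _ => (0 : M)) c = 0 := by
  have : (ext (fun _ => (0 : M)) : Ch (ZMod p) α →ₗ[ZMod p] M) = 0 := by
    apply hom_ext
    intro l
    simp
  exact LinearMap.congr_fun this c

theorem ext_cob (ω : List (ZMod p) → ZMod p) (c : Ch (ZMod p) (ZMod p)) :
    ext (cob ω) c = ext ω (bd c) := by
  have : (ext (cob ω) : Ch (ZMod p) (ZMod p) →ₗ[ZMod p] ZMod p) = ext ω ∘ₗ bd := by
    apply hom_ext
    intro l
    simp [cob]
  exact LinearMap.congr_fun this c

theorem cob_nil (ω : List (ZMod p) → ZMod p) : cob ω [] = 0 := by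
  simp [cob]

theorem cob_tr (ω : List (ZMod p) → ZMod p) (t : ZMod p) (l : List (ZMod p)) :
    cob ω (tr t l) = cob (fun m => ω (tr t m)) l := by
  rw [cob, tr, ← act_bdL, ext_act]
  rfl

theorem cob_cob (ω : List (ZMod p) → ZMod p) (l : List (ZMod p)) : cob (cob ω) l = 0 := by
  rw [cob, ext_cob, bd_bdL, map_zero]

theorem Ec_spec (ω : List (ZMod p) → ZMod p) (h0 : ω [] = 0)
    (h : ∀ l, ∑ j ∈ Finset.range p, ω (tr (j : ZMod p) l) = 0) (l : List (ZMod p)) :
    Ec ω (tr 1 l) - Ec ω l = ω l := by
  rcases l with _ | ⟨a, m⟩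
  · simp [tr, Ec, h0]
  · have e1 : Ec ω (tr 1 (a :: m)) =
        ∑ j ∈ Finset.range (a + 1).val, ω (tr ((j : ZMod p) - a) (a :: m)) := by
      have : tr 1 (a :: m) = (a + 1) :: tr 1 m := rfl
      rw [this, Ec]
      apply Finset.sum_congr rfl
      intro j _
      rw [← this, tr_tr]
      congr 2
      ring
    rw [e1, Ec]
    have hlt := ZMod.val_lt a
    by_cases hc : a.val + 1 < p
    · have : (a + 1).val = a.val + 1 := by
        rw [ZMod.val_add, ZMod.val_one]
        exact Nat.mod_eq_of_lt hc
      rw [this, Finset.sum_range_succ, add_sub_cancel_left]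
      simp [tr_zero]
    · have hc' : a.val + 1 = p := by omega
      have : (a + 1).val = 0 := by
        rw [ZMod.val_add, ZMod.val_one, hc', Nat.mod_self]
      rw [this, Finset.range_zero, Finset.sum_empty, zero_sub]
      have h2 := h (tr (-a) (a :: m))
      have hr : Finset.range p = Finset.range (a.val + 1) := by rw [hc']
      rw [hr, Finset.sum_range_succ] at h2
      have h3 : ω (tr (a.val : ZMod p) (tr (-a) (a :: m))) = ω (a :: m) := by
        rw [tr_tr]
        simp [tr_zero]
      rw [h3] at h2
      have h4 : ∑ j ∈ Finset.range a.val, ω (tr (j : ZMod p) (tr (-a) (a :: m))) =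
          ∑ j ∈ Finset.range a.val, ω (tr ((j : ZMod p) - a) (a :: m)) := by
        apply Finset.sum_congr rfl
        intro j _
        rw [tr_tr]
        congr 2
        ring
      rw [h4] at h2
      linear_combination -h2

theorem tr_inv (ω : List (ZMod p) → ZMod p) (h : ∀ l, ω (tr 1 l) = ω l) (j : ℕ)
    (l : List (ZMod p)) : ω (tr (j : ZMod p) l) = ω l := by
  induction j with
  | zero => simp [tr_zero]
  | succ j ih =>
    rw [← ih, ← h (tr (j : ZMod p) l), tr_tr]
    push_cast
    rfl

theorem Oc_spec (ω : List (ZMod p) → ZMod p) (h0 : ω [] = 0)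
    (h : ∀ l, ω (tr 1 l) = ω l) (l : List (ZMod p)) :
    ∑ j ∈ Finset.range p, Oc ω (tr (j : ZMod p) l) = ω l := by
  rcases l with _ | ⟨a, m⟩
  · simp [tr, Oc, h0]
  · have e1 : ∀ j : ℕ, Oc ω (tr (j : ZMod p) (a :: m)) =
        if a + j = 0 then ω (a :: m) else 0 := by
      intro j
      have : tr (j : ZMod p) (a :: m) = (a + j) :: tr j m := rfl
      rw [this, Oc, ← this]
      rw [tr_inv ω h]
    simp only [e1]
    rw [Finset.sum_eq_single (-a).val]
    · simp
    · intro j hj hne
      rw [if_neg]
      intro hz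
      apply hne
      rw [Finset.mem_range] at hj
      have : (j : ZMod p) = -a := by
        linear_combination hz
      rw [← this, ZMod.val_natCast, Nat.mod_eq_of_lt hj]
    · intro hn
      exact absurd (Finset.mem_range.2 (ZMod.val_lt (-a))) hn

theorem eta_inv (i : ℕ) :
    (Even i → ∀ l : List (ZMod p), ∑ j ∈ Finset.range p, cob (eta i) (tr (j : ZMod p) l) = 0) ∧
    (¬ Even i → ∀ l : List (ZMod p), cob (eta i) (tr 1 l) = cob (eta i) l) := by
  induction i with
  | zero =>
    refine ⟨fun _ l => ?_, fun h => absurd Even.zero h⟩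
    have : ∀ j ∈ Finset.range p, cob (eta 0) (tr (j : ZMod p) l) = cob (eta 0) l := by
      intro j _
      rw [cob_tr]
      congr 1
      funext m
      simp [eta, tr]
    rw [Finset.sum_congr rfl this]
    simp
  | succ i ih =>
    constructor
    · intro hev l
      have hi : ¬ Even i := by
        intro h
        exact (Nat.even_add_one.1 hev) h
      have e : eta (p := p) (i + 1) = Oc (cob (eta i)) := by
        rw [eta, if_neg hi]
      rw [e]
      simp only [cob_tr]
      simp only [cob]
      rw [← ext_sum_fun]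
      rw [ext_congr (g := cob (eta i)) (fun m => ?_)]
      · exact cob_cob _ _
      · exact Oc_spec (cob (eta i)) (cob_nil _) (ih.2 hi) m
    · intro hev l
      have hi : Even i := by
        by_contra h
        exact hev (Nat.even_add_one.2 h)
      have e : eta (p := p) (i + 1) = Ec (cob (eta i)) := by
        rw [eta, if_pos hi]
      rw [e, ← sub_eq_zero, cob_tr]
      simp only [cob]
      rw [← ext_sub_fun]
      rw [ext_congr (g := cob (eta i)) (fun m => ?_)]
      · exact cob_cob _ _
      · exact Ec_spec (cob (eta i)) (cob_nil _) (ih.1 hi) m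

theorem pairing (n : ℕ) (c : ℕ → Ch (ZMod p) (ZMod p)) (h0 : bd (c 0) = single [] 1)
    (hs : ∀ i < n, bd (c (i + 1)) = if Even i then act (· + 1) (c i) - c i else
      ∑ j ∈ Finset.range p, act (· + (j : ZMod p)) (c i)) :
    ∀ i ≤ n, ext (cob (eta i)) (c i) = 1 := by
  intro i
  induction i with
  | zero =>
    intro _
    rw [ext_cob, h0]
    simp [eta]
  | succ i ih =>
    intro hi
    rw [ext_cob, hs i (by omega)]
    have ihi := ih (by omega)
    by_cases hev : Even i
    · rw [if_pos hev, map_sub, ext_act, ← ext_sub_fun]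
      refine Eq.trans ?_ ihi
      apply ext_congr
      intro l
      have e : eta (p := p) (i + 1) = Ec (cob (eta i)) := by
        rw [eta, if_pos hev]
      rw [e]
      exact Ec_spec (cob (eta i)) (cob_nil _) ((eta_inv i).1 hev) l
    · rw [if_neg hev, map_sum]
      simp only [ext_act]
      rw [← ext_sum_fun]
      refine Eq.trans ?_ ihi
      apply ext_congr
      intro l
      have e : eta (p := p) (i + 1) = Oc (cob (eta i)) := by
        rw [eta, if_neg hev]
      rw [e]
      exact Oc_spec (cob (eta i)) (cob_nil _) ((eta_inv i).2 hev) l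

/-- a list with two equal consecutive entries -/
inductive Dup {α : Type} : List α → Prop
  | here (x : α) (v : List α) : Dup (x :: x :: v)
  | there (a : α) (l : List α) (h : Dup l) : Dup (a :: l)

/-- normalized cochains -/
def Norm {α : Type} (ω : List α → ZMod p) : Prop := ∀ l, Dup l → ω l = 0

theorem ext_pre {α : Type} (ω : List α → ZMod p) (a : α) (c : Ch (ZMod p) α) :
    ext ω (pre a c) = ext (fun l => ω (a :: l)) c := by
  have : (ext ω ∘ₗ pre a : Ch (ZMod p) α →ₗ[ZMod p] ZMod p) = ext (fun l => ω (a :: l)) := by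
    apply hom_ext
    intro l
    simp
  exact LinearMap.congr_fun this c

theorem norm_bd {α : Type} (l : List α) (hl : Dup l) :
    ∀ ω : List α → ZMod p, Norm ω → ext ω (bdL (ZMod p) l) = 0 := by
  induction hl with
  | here x v =>
    intro ω hω
    rw [bdL_cons, bdL_cons, map_sub, map_sub, map_sub, ext_pre, ext_pre]
    simp only [pre_single, ext_single, one_smul]
    rw [ext_pre]
    have : ext (fun l => ω (x :: x :: l)) (bdL (ZMod p) v) = 0 := by
      rw [ext_congr (g := fun _ => (0 : ZMod p)) (fun m => hω _ (Dup.here x m)), ext_zero_fun]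
    rw [this]
    simp
  | there a l h ih =>
    intro ω hω
    rw [bdL_cons, map_sub, ext_pre, ih (fun m => ω (a :: m)) (fun m hm => hω _ (Dup.there a m hm))]
    simp [hω l h]

theorem Dup.map {α β : Type} (f : α → β) {l : List α} (h : Dup l) : Dup (l.map f) := by
  induction h with
  | here x v => exact Dup.here _ _
  | there a l h ih => exact Dup.there _ _ ih

theorem norm_eta (i : ℕ) : Norm (eta (p := p) i) := by
  induction i with
  | zero =>
    intro l hl
    cases hl <;> simp [eta]
  | succ i ih =>
    have hc : Norm (cob (eta (p := p) i)) := fun l hl => norm_bd l hl _ ih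
    rw [eta]
    split_ifs
    · intro l hl
      rcases l with _ | ⟨a, m⟩
      · rfl
      · rw [Ec]
        apply Finset.sum_eq_zero
        intro j _
        exact hc _ (hl.map _)
    · intro l hl
      rcases l with _ | ⟨a, m⟩
      · rfl
      · rw [Oc]
        split_ifs
        · exact hc _ hl
        · rfl

theorem vanish (i : ℕ) (c : Ch (ZMod p) (ZMod p)) (hc : AllCh Dup c) :
    ext (cob (eta i)) c = 0 := by
  have hn : Norm (cob (eta (p := p) i)) := fun l hl => norm_bd l hl _ (norm_eta i)
  rw [ext, Finsupp.linearCombination_apply, Finsupp.sum]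
  apply Finset.sum_eq_zero
  intro l hl
  rw [hn l (hc l hl), smul_zero]

end Pool.Agent.IndexGap
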