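import Mathlib

/-!
# Simplicial and topological index of order complexes of `G`-posets: definitions
-/

namespace Pool.Agent.IndexGap

/-- An (abstract) simplicial complex with vertex set `V`. -/
structure Cplx (V : Type) where
  /-- the simplices -/
  faces : Set (Finset V)
  /-- simplices are nonempty -/
  nonempty_of_mem : ∀ s ∈ faces, s.Nonempty
  /-- nonempty subsets of simplices are simplices -/
  down_closed : ∀ s ∈ faces, ∀ t : Finset V, t ⊆ s → t.Nonempty → t ∈ faces
  /-- every vertex is a simplex -/
  singleton_mem : ∀ v : V, {v} ∈ faces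

/-- The order complex `ΔP` of a poset: the simplices are the nonempty finite chains. -/
def orderComplex (P : Type) [PartialOrder P] : Cplx P where
  faces := {s | s.Nonempty ∧ IsChain (· ≤ ·) (s : Set P)}
  nonempty_of_mem := fun _ hs => hs.1
  down_closed := fun _ hs _ hts ht => ⟨ht, hs.2.mono (by exact_mod_cast hts)⟩
  singleton_mem := fun v => ⟨Finset.singleton_nonempty v, by simp⟩

/-- The geometric realization `|K|` of a simplicial complex with finite vertex set, as a
(topological) subspace of `V → ℝ`: the functions with nonnegative values and sum `1` whose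
support is a simplex. -/
def geom {V : Type} [Fintype V] (K : Cplx V) : Set (V → ℝ) :=
  {x | (∀ v, 0 ≤ x v) ∧ ∑ v, x v = 1 ∧ ∃ s ∈ K.faces, ∀ v, x v ≠ 0 ↔ v ∈ s}

/-- The action of a group on functions on a set on which it acts; on the vertices `δ_v` it is
`g ⋆ δ_v = δ_{g v}`. -/
def shift {G V : Type} [Group G] [MulAction G V] (g : G) (x : V → ℝ) : V → ℝ :=
  fun v => x (g⁻¹ • v)

/-- The `G`-poset `Q_n G = G × {0, …, n}`. -/
structure Q (G : Type) (n : ℕ) where
  /-- the group component -/
  grp : G
  /-- the level -/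
  lev : Fin (n + 1)

/-- equality is decidable -/
instance {G : Type} [DecidableEq G] {n : ℕ} : DecidableEq (Q G n) := fun a b =>
  decidable_of_iff (a.grp = b.grp ∧ a.lev = b.lev) (by cases a; cases b; simp)

/-- `Q_n G` is the product of `G` and `{0, …, n}` as a set. -/
def Q.equivProd (G : Type) (n : ℕ) : Q G n ≃ G × Fin (n + 1) where
  toFun a := (a.grp, a.lev)
  invFun a := ⟨a.1, a.2⟩
  left_inv _ := rfl
  right_inv _ := rfl

instance {G : Type} [Fintype G] {n : ℕ} : Fintype (Q G n) :=
  Fintype.ofEquiv _ (Q.equivProd G n).symm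

/-- `(g, i) < (h, j)` if and only if `i < j`. -/
instance {G : Type} {n : ℕ} : PartialOrder (Q G n) where
  le a b := a = b ∨ a.lev < b.lev
  le_refl a := Or.inl rfl
  le_trans a b c := by
    rintro (rfl | h1) (rfl | h2)
    · exact Or.inl rfl
    · exact Or.inr h2
    · exact Or.inr h1
    · exact Or.inr (h1.trans h2)
  le_antisymm a b := by
    rintro (rfl | h1) (h | h2)
    · rfl
    · rfl
    · exact h.symm
    · exact absurd (h1.trans h2) (lt_irrefl _)

/-- `g • (h, i) = (g h, i)`. -/
instance {G : Type} [Group G] {n : ℕ} : MulAction G (Q G n) where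
  smul g a := ⟨g * a.grp, a.lev⟩
  one_smul a := by
    change (⟨1 * a.grp, a.lev⟩ : Q G n) = a
    rw [one_mul]
  mul_smul g h a := by
    change (⟨g * h * a.grp, a.lev⟩ : Q G n) = ⟨g * (h * a.grp), a.lev⟩
    rw [mul_assoc]

/-- There is a continuous `G`-equivariant map `|K| → |L|`. -/
def ExistsTopMap (G : Type) [Group G] {V W : Type} [Fintype V] [Fintype W] [MulAction G V]
    [MulAction G W] (K : Cplx V) (L : Cplx W) : Prop :=
  ∃ f : C(geom K, geom L), ∀ (g : G) (x y : geom K),
    (y : V → ℝ) = shift g (x : V → ℝ) → (f y : W → ℝ) = shift g (f x : W → ℝ)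

/-- There is a `G`-equivariant simplicial map `K → L`. -/
def ExistsSimpMap (G : Type) [Group G] {V W : Type} [MulAction G V]
    [MulAction G W] [DecidableEq W] (K : Cplx V) (L : Cplx W) : Prop :=
  ∃ φ : V → W, (∀ (g : G) (v : V), φ (g • v) = g • φ v) ∧ ∀ s ∈ K.faces, s.image φ ∈ L.faces

/-- `ind K = n`: `n` is the least natural number such that there is a continuous equivariant map
`|K| → |E_n G|`, where `E_n G = Δ(Q_n G)`. -/
def TopIndexEq (G : Type) [Group G] [Fintype G] {V : Type} [Fintype V] [MulAction G V]
    (K : Cplx V) (n : ℕ) : Prop :=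
  IsLeast {k : ℕ | ExistsTopMap G K (orderComplex (Q G k))} n

/-- `sind K = n`: `n` is the least natural number such that there is an equivariant simplicial
map `K → E_n G`. -/
def SimpIndexEq (G : Type) [Group G] [DecidableEq G] {V : Type} [MulAction G V]
    (K : Cplx V) (n : ℕ) : Prop :=
  IsLeast {k : ℕ | ExistsSimpMap G K (orderComplex (Q G k))} n

end Pool.Agent.IndexGap
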