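import Mathlib
import Pool.Agent.Lib.MP_6f03fc_co.Defs

/-!
# The construction raising the simplicial index
-/

namespace Pool.Agent.IndexGap

/-- The underlying set of the new poset: free orbits indexed by `B` together with copies of `Y`
indexed by `I`. -/
inductive XP (B I Y G : Type) : Type
  | bot (b : B) (g : G) : XP B I Y G
  | cp (i : I) (y : Y) : XP B I Y G

namespace XP

variable {B I Y G : Type}

/-- as a sum type -/
def equivSum (B I Y G : Type) : XP B I Y G ≃ (B × G) ⊕ (I × Y) where
  toFun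
    | bot b g => Sum.inl (b, g)
    | cp i y => Sum.inr (i, y)
  invFun
    | Sum.inl (b, g) => bot b g
    | Sum.inr (i, y) => cp i y
  left_inv x := by cases x <;> rfl
  right_inv x := by rcases x with ⟨b, g⟩ | ⟨i, y⟩ <;> rfl

instance [Fintype B] [Fintype I] [Fintype Y] [Fintype G] : Fintype (XP B I Y G) :=
  Fintype.ofEquiv _ (equivSum B I Y G).symm

theorem sum_eq [Fintype B] [Fintype I] [Fintype Y] [Fintype G] (x : XP B I Y G → ℝ) :
    ∑ v, x v = ∑ b : B, ∑ g : G, x (bot b g) + ∑ i : I, ∑ y : Y, x (cp i y) := by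
  rw [← Fintype.sum_prod_type', ← Fintype.sum_prod_type']
  have h := Fintype.sum_sum_type
    (Sum.elim (fun a : B × G => x (bot a.1 a.2)) (fun a : I × Y => x (cp a.1 a.2)))
  simp only [Sum.elim_inl, Sum.elim_inr] at h
  rw [← h]
  apply Fintype.sum_equiv (equivSum B I Y G)
  rintro (⟨b, g⟩ | ⟨i, y⟩) <;> rfl

variable [Group G] [PartialOrder Y] [MulAction G Y]

/-- the order relation: `g b` lies below `g a` and everything above it in the copy `i` if
`att i b = some a` -/
def le' (att : I → B → Option Y) : XP B I Y G → XP B I Y G → Prop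
  | bot b g, bot b' g' => b = b' ∧ g = g'
  | bot b g, cp i y => ∃ a, att i b = some a ∧ g • a ≤ y
  | cp _ _, bot _ _ => False
  | cp i y, cp i' y' => i = i' ∧ y ≤ y'

/-- the partial order -/
@[reducible] def order (att : I → B → Option Y) : PartialOrder (XP B I Y G) where
  le := le' att
  le_refl x := by
    cases x
    · exact ⟨rfl, rfl⟩
    · exact ⟨rfl, le_rfl⟩
  le_trans x y z := by
    rcases x with ⟨b, g⟩ | ⟨i, u⟩ <;> rcases y with ⟨b', g'⟩ | ⟨i', u'⟩ <;>
      rcases z with ⟨b'', g''⟩ | ⟨i'', u''⟩ <;> intro h1 h2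
    · obtain ⟨rfl, rfl⟩ := h1; exact h2
    · obtain ⟨rfl, rfl⟩ := h1; exact h2
    · exact h2.elim
    · obtain ⟨a, ha, h1⟩ := h1
      obtain ⟨rfl, h2⟩ := h2
      exact ⟨a, ha, h1.trans h2⟩
    · exact h1.elim
    · exact h1.elim
    · exact h2.elim
    · exact ⟨h1.1.trans h2.1, h1.2.trans h2.2⟩
  le_antisymm x y := by
    rcases x with ⟨b, g⟩ | ⟨i, u⟩ <;> rcases y with ⟨b', g'⟩ | ⟨i', u'⟩ <;> intro h1 h2
    · obtain ⟨rfl, rfl⟩ := h1; rfl
    · exact h2.elim
    · exact h1.elim
    · obtain ⟨rfl, h1⟩ := h1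
      rw [le_antisymm h1 h2.2]

/-- the action -/
@[reducible] def action : MulAction G (XP B I Y G) where
  smul g
    | bot b h => bot b (g * h)
    | cp i y => cp i (g • y)
  one_smul x := by
    rcases x with ⟨b, g⟩ | ⟨i, u⟩
    · change bot b (1 * g) = bot b g
      rw [one_mul]
    · change cp i ((1 : G) • u) = cp i u
      rw [one_smul]
  mul_smul g h x := by
    rcases x with ⟨b, k⟩ | ⟨i, u⟩
    · change bot b (g * h * k) = bot b (g * (h * k))
      rw [mul_assoc]
    · change cp i ((g * h) • u) = cp i (g • h • u)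
      rw [mul_smul]

end XP

/-- levels and group labels: the combinatorial form of equivariant simplicial maps to `E_{L-1} G` -/
def SM (G P : Type) [Group G] [PartialOrder P] [MulAction G P] (L : ℕ) : Prop :=
  ∃ (γ : P → G) (ρ : P → Fin L), (∀ g p, γ (g • p) = g * γ p) ∧ (∀ (g : G) p, ρ (g • p) = ρ p) ∧
    ∀ p q, p < q → ρ p = ρ q → γ p = γ q

theorem existsSimpMap_iff (G P : Type) [Group G] [DecidableEq G] [PartialOrder P] [MulAction G P]
    (k : ℕ) : ExistsSimpMap G (orderComplex P) (orderComplex (Q G k)) ↔ SM G P (k + 1) := by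
  classical
  constructor
  · rintro ⟨φ, h1, h2⟩
    refine ⟨fun p => (φ p).grp, fun p => (φ p).lev, ?_, ?_, ?_⟩
    · intro g p
      change (φ (g • p)).grp = g * (φ p).grp
      rw [h1]
      rfl
    · intro g p
      change (φ (g • p)).lev = (φ p).lev
      rw [h1]
      rfl
    · intro p q hpq hl
      change (φ p).lev = (φ q).lev at hl
      change (φ p).grp = (φ q).grp
      have hs : ({p, q} : Finset P) ∈ (orderComplex P).faces := by
        refine ⟨by simp, ?_⟩
        rw [Finset.coe_pair]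
        exact IsChain.pair hpq.le
      have h3 := (h2 _ hs).2
      have h4 := h3.total (x := φ p) (y := φ q) (by simp) (by simp)
      rcases h4 with (h4 | h4) | (h4 | h4)
      · rw [h4]
      · exact absurd hl h4.ne
      · rw [h4]
      · exact absurd hl h4.ne'
  · rintro ⟨γ, ρ, h1, h2, h3⟩
    refine ⟨fun p => ⟨γ p, ρ p⟩, ?_, ?_⟩
    · intro g p
      change (⟨γ (g • p), ρ (g • p)⟩ : Q G k) = ⟨g * γ p, ρ p⟩
      rw [h1, h2]
    · intro s hs
      refine ⟨hs.1.image _, ?_⟩
      intro x hx y hy _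
      rw [Finset.coe_image] at hx hy
      obtain ⟨p, hp, rfl⟩ := hx
      obtain ⟨q, hq, rfl⟩ := hy
      have key : ∀ p q : P, p ≤ q → (⟨γ p, ρ p⟩ : Q G k) ≤ ⟨γ q, ρ q⟩ ∨
          (⟨γ q, ρ q⟩ : Q G k) ≤ ⟨γ p, ρ p⟩ := by
        intro p q hpq
        rcases hpq.eq_or_lt with rfl | hlt
        · exact Or.inl le_rfl
        · rcases lt_trichotomy (ρ p) (ρ q) with h | h | h
          · exact Or.inl (Or.inr h)
          · left
            left
            rw [h, h3 p q hlt h]
          · exact Or.inr (Or.inr h)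
      rcases hs.2.total hp hq with h | h
      · exact key p q h
      · exact (key q p h).symm

theorem SM.mono {G P : Type} [Group G] [PartialOrder P] [MulAction G P] {L L' : ℕ} (h : L ≤ L')
    (hs : SM G P L) : SM G P L' := by
  obtain ⟨γ, ρ, h1, h2, h3⟩ := hs
  refine ⟨γ, fun p => Fin.castLE h (ρ p), h1, fun g p => congrArg _ (h2 g p), ?_⟩
  intro p q hpq hl
  exact h3 p q hpq (Fin.castLE_injective h hl)

section step

variable (G Y : Type) [Group G] [Fintype G] [Nontrivial G] [PartialOrder Y] [Fintype Y]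
  [MulAction G Y]

/-- orbits -/
abbrev Orb := MulAction.orbitRel.Quotient G Y

/-- orbit representatives -/
noncomputable def rep (j : Orb G Y) : Y := Quotient.out j

theorem exists_smul_rep (y : Y) : ∃ (j : Orb G Y) (g : G), y = g • rep G Y j := by
  refine ⟨Quotient.mk _ y, ?_⟩
  have h : MulAction.orbitRel G Y (Quotient.out (Quotient.mk (MulAction.orbitRel G Y) y)) y :=
    Quotient.exact (Quotient.out_eq _)
  have h' := MulAction.orbitRel_apply.1 ((MulAction.orbitRel G Y).symm h)
  obtain ⟨g, hg⟩ := h'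
  exact ⟨g, hg.symm⟩

open Classical in
noncomputable instance : Fintype (Orb G Y) := Fintype.ofFinite _

/-- the index set of the new orbits -/
abbrev BB (L : ℕ) := Fin ((L + 1) * (2 * Fintype.card (Orb G Y)))

/-- the index set of the copies -/
abbrev II (L : ℕ) := (Orb G Y × Bool ↪ BB G Y L) × (Orb G Y → G)

open Classical in
/-- the attachments -/
noncomputable def attach (L : ℕ) (i : II G Y L) (b : BB G Y L) : Option Y :=
  if h : ∃ u : Orb G Y × Bool, i.1 u = b then
    some (if h.choose.2 then (i.2 h.choose.1)⁻¹ • rep G Y h.choose.1 else rep G Y h.choose.1)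
  else none

theorem attach_apply (L : ℕ) (i : II G Y L) (u : Orb G Y × Bool) :
    attach G Y L i (i.1 u) = some (if u.2 then (i.2 u.1)⁻¹ • rep G Y u.1 else rep G Y u.1) := by
  have h : ∃ u' : Orb G Y × Bool, i.1 u' = i.1 u := ⟨u, rfl⟩
  have h2 : h.choose = u := i.1.injective h.choose_spec
  rw [attach, dif_pos h, h2]

open Classical in
noncomputable instance (L : ℕ) : Fintype (II G Y L) := Fintype.ofFinite _

instance (L : ℕ) : Nonempty (II G Y L) := by
  have : Nonempty (Orb G Y × Bool ↪ BB G Y L) := by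
    apply Function.Embedding.nonempty_of_card_le
    rw [Fintype.card_prod, Fintype.card_bool, Fintype.card_fin, mul_comm]
    exact Nat.le_mul_of_pos_left _ (by omega)
  exact ⟨⟨this.some, fun _ => 1⟩⟩

/-- The key combinatorial step. -/
theorem not_SM_step (L : ℕ) (hY : ¬ SM G Y L) :
    letI := XP.order (G := G) (attach G Y L)
    letI := XP.action (B := BB G Y L) (I := II G Y L) (Y := Y) (G := G)
    ¬ SM G (XP (BB G Y L) (II G Y L) Y G) (L + 1) := by
  classical
  letI := XP.order (G := G) (attach G Y L)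
  letI := XP.action (B := BB G Y L) (I := II G Y L) (Y := Y) (G := G)
  rintro ⟨γ, ρ, h1, h2, h3⟩
  -- a popular level
  obtain ⟨c, hc⟩ := Fintype.exists_le_card_fiber_of_mul_le_card
    (f := fun b : BB G Y L => ρ (XP.bot b 1)) (n := 2 * Fintype.card (Orb G Y)) (by simp)
  have hemb : Nonempty (Orb G Y × Bool ↪ {b : BB G Y L // ρ (XP.bot b 1) = c}) := by
    apply Function.Embedding.nonempty_of_card_le
    rw [Fintype.card_prod, Fintype.card_bool, Fintype.card_subtype, mul_comm]
    exact hc
  obtain ⟨σ'⟩ := hemb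
  set σ : Orb G Y × Bool ↪ BB G Y L := σ'.trans (Function.Embedding.subtype _) with hσ
  have hσc : ∀ u g, ρ (XP.bot (σ u) g) = c := by
    intro u g
    have e : (XP.bot (σ u) g : XP (BB G Y L) (II G Y L) Y G) = g • XP.bot (σ u) 1 := by
      change _ = XP.bot (σ u) (g * 1)
      rw [mul_one]
    rw [e, h2]
    exact (σ' u).2
  have hγ : ∀ u g, γ (XP.bot (σ u) g) = g * γ (XP.bot (σ u) 1) := by
    intro u g
    have e : (XP.bot (σ u) g : XP (BB G Y L) (II G Y L) Y G) = g • XP.bot (σ u) 1 := by
      change _ = XP.bot (σ u) (g * 1)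
      rw [mul_one]
    rw [e, h1]
  -- choose the twist
  have hτ : ∀ j : Orb G Y, ∃ t : G,
      t ≠ γ (XP.bot (σ (j, false)) 1) * (γ (XP.bot (σ (j, true)) 1))⁻¹ := fun j => exists_ne _
  choose τ hτ using hτ
  set i : II G Y L := (σ, τ) with hi
  -- the copy `i` avoids the level `c`
  have havoid : ∀ y, ρ (XP.cp i y) ≠ c := by
    intro y hy
    obtain ⟨j, g, rfl⟩ := exists_smul_rep G Y y
    have e : (XP.cp i (g • rep G Y j) : XP (BB G Y L) (II G Y L) Y G) =
        g • XP.cp i (rep G Y j) := rfl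
    rw [e, h2] at hy
    have l1 : (XP.bot (σ (j, false)) 1 : XP (BB G Y L) (II G Y L) Y G) < XP.cp i (rep G Y j) := by
      rw [lt_iff_le_and_ne]
      refine ⟨⟨rep G Y j, ?_, by rw [one_smul]⟩, by simp⟩
      have := attach_apply G Y L i (j, false)
      simpa using this
    have l2 : (XP.bot (σ (j, true)) (τ j) : XP (BB G Y L) (II G Y L) Y G) <
        XP.cp i (rep G Y j) := by
      rw [lt_iff_le_and_ne]
      refine ⟨⟨(τ j)⁻¹ • rep G Y j, ?_, by rw [smul_inv_smul]⟩, by simp⟩
      have := attach_apply G Y L i (j, true)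
      simpa using this
    have g1 := h3 _ _ l1 ((hσc _ _).trans hy.symm)
    have g2 := h3 _ _ l2 ((hσc _ _).trans hy.symm)
    rw [hγ] at g2
    apply hτ j
    rw [eq_mul_inv_iff_mul_eq, g2, g1]
  -- hence a map on `Y` with fewer levels
  apply hY
  have hex : ∀ y, ∃ z : Fin L, c.succAbove z = ρ (XP.cp i y) := fun y =>
    Fin.exists_succAbove_eq (havoid y)
  choose ρ' hρ' using hex
  refine ⟨fun y => γ (XP.cp i y), ρ', ?_, ?_, ?_⟩
  · intro g p
    exact h1 g (XP.cp i p)
  · intro g p
    apply Fin.succAbove_right_injective (p := c)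
    rw [hρ', hρ']
    exact h2 g (XP.cp i p)
  · intro p q hpq hl
    apply h3
    · rw [lt_iff_le_and_ne]
      refine ⟨⟨rfl, hpq.le⟩, ?_⟩
      intro h
      injection h with _ h
      exact hpq.ne h
    · rw [← hρ', ← hρ', hl]

end step

end Pool.Agent.IndexGap
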