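import Mathlib
import Pool.Agent.Lib.MP_6f03fc_co.Cochain

/-!
# Compatible families of chains and the labelling argument
-/

namespace Pool.Agent.IndexGap

open Finsupp

variable {p : ℕ} [hp : Fact p.Prime]

/-- the relations between the chains -/
def Rel {α : Type} (T : ℕ → α → α) (n : ℕ) (c : ℕ → Ch (ZMod p) α) : Prop :=
  bd (c 0) = single [] 1 ∧ ∀ i < n, bd (c (i + 1)) = if Even i then act (T 1) (c i) - c i else
      ∑ j ∈ Finset.range p, act (T j) (c i)

theorem Rel.map {α β : Type} {T : ℕ → α → α} {T' : ℕ → β → β} {n : ℕ} {c : ℕ → Ch (ZMod p) α}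
    (h : Rel T n c) (F : Ch (ZMod p) α →ₗ[ZMod p] Ch (ZMod p) β) (hF : ∀ c, bd (F c) = F (bd c))
    (h0 : F (single [] 1) = single [] 1) (hT : ∀ j c, F (act (T j) c) = act (T' j) (F c)) :
    Rel T' n (fun i => F (c i)) := by
  constructor
  · rw [hF, h.1, h0]
  · intro i hi
    rw [hF, h.2 i hi]
    split_ifs
    · rw [map_sub, hT]
    · rw [map_sum]
      simp only [hT]

/-- the vertex of maximal level -/
def topL {k : ℕ} {M : Type} (b0 : Fin k × M) : List (Fin k × M) → Fin k × M
  | [] => b0
  | [b] => b
  | b :: c :: l => if (topL b0 (c :: l)).1 ≤ b.1 then b else topL b0 (c :: l)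

theorem topL_mem {k : ℕ} {M : Type} (b0 : Fin k × M) (l : List (Fin k × M)) (hl : l ≠ []) :
    topL b0 l ∈ l := by
  induction l with
  | nil => exact absurd rfl hl
  | cons b l ih =>
    rcases l with _ | ⟨c, l⟩
    · simp [topL]
    · rw [topL]
      split_ifs
      · exact List.mem_cons_self
      · exact List.mem_cons_of_mem _ (ih (by simp))

theorem le_topL {k : ℕ} {M : Type} (b0 : Fin k × M) (l : List (Fin k × M)) :
    ∀ b ∈ l, b.1 ≤ (topL b0 l).1 := by
  induction l with
  | nil => intro b hb; simp at hb
  | cons b l ih =>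
    rcases l with _ | ⟨c, l⟩
    · intro b' hb'
      rw [List.mem_singleton] at hb'
      rw [hb', topL]
    · intro b' hb'
      rw [topL]
      rcases List.mem_cons.1 hb' with rfl | hb'
      · split_ifs with h
        · exact le_rfl
        · exact (not_le.1 h).le
      · have := ih b' hb'
        split_ifs with h
        · exact this.trans h
        · exact this

theorem topL_map {k : ℕ} {M : Type} (b0 : Fin k × M) (f : M → M) (l : List (Fin k × M))
    (hl : l ≠ []) : topL b0 (l.map (fun b => (b.1, f b.2))) =
      ((topL b0 l).1, f (topL b0 l).2) := by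
  induction l with
  | nil => exact absurd rfl hl
  | cons b l ih =>
    rcases l with _ | ⟨c, l⟩
    · simp [topL]
    · have ih' := ih (by simp)
      rw [List.map_cons, List.map_cons, topL, ← List.map_cons (f := fun b : Fin k × M => (b.1, f b.2)),
        ih', topL]
      split_ifs <;> rfl

/-- good label lists: the level determines the label -/
def GoodLab {k : ℕ} {M : Type} (l : List (Fin k × M)) : Prop :=
  ∀ b ∈ l, ∀ b' ∈ l, b.1 = b'.1 → b.2 = b'.2

theorem Flag.cases' {α β : Type} {A : List α → β} {l : List α} {m : List β} (h : Flag A l m) :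
    (l = [] ∧ m = []) ∨ (l ≠ [] ∧ ∃ m', m = A l :: m') := by
  induction h with
  | nil => exact Or.inl ⟨rfl, rfl⟩
  | cons l i hi m h _ =>
    refine Or.inr ⟨?_, m, rfl⟩
    intro h0
    rw [h0] at hi
    simp at hi

theorem dup_of_flag {k : ℕ} {M : Type} (b0 : Fin k × M) {l m : List (Fin k × M)}
    (h : Flag (topL b0) l m) : ∀ (t : ℕ), GoodLab l → (∀ b ∈ l, (b.1 : ℕ) < t) → t < l.length →
    Dup (m.map Prod.snd) := by
  induction h with
  | nil => 
    intro t _ _ h
    simp at h
  | cons l i hi m h ih =>
    intro t hgl hb ht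
    have hl : l ≠ [] := by
      rintro rfl
      simp at hi
    have hsubl : ∀ x ∈ l.eraseIdx i, x ∈ l := fun x hx => List.mem_of_mem_eraseIdx hx
    have htop := topL_mem b0 l hl
    have hlen := List.length_eraseIdx_of_lt hi
    have hcases := h.cases'
    rcases hcases with ⟨h0, _⟩ | ⟨hl'ne, m', rfl⟩
    · exfalso
      rw [h0] at hlen
      simp only [List.length_nil] at hlen
      have h1 := hb _ htop
      omega
    · set l' := l.eraseIdx i with hl'
      have htop' := topL_mem b0 l' hl'ne
      have hle := le_topL b0 l _ (hsubl _ htop')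
      rcases hle.eq_or_lt with heq | hlt
      · have := hgl _ (hsubl _ htop') _ htop heq
        rw [List.map_cons, List.map_cons, this]
        exact Dup.here _ _
      · rw [List.map_cons]
        apply Dup.there
        apply ih (t - 1)
        · intro b hb b' hb'
          exact hgl b (hsubl b hb) b' (hsubl b' hb')
        · intro b hb1
          have h1 := le_topL b0 l' b hb1
          have h2 := hb _ htop
          have h3 : (b.1 : ℕ) ≤ ((topL b0 l').1 : ℕ) := h1
          have h4 : ((topL b0 l').1 : ℕ) < ((topL b0 l).1 : ℕ) := hlt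
          omega
        · rw [hlen]
          have h2 := hb _ htop
          omega

/-- The combinatorial core: there is no compatible family all of whose `n`-dimensional lists are
labelled by at most `n` levels. -/
theorem no_label {k n : ℕ} (hk : k ≤ n) (b0 : Fin k × ZMod p)
    (c : ℕ → Ch (ZMod p) (Fin k × ZMod p))
    (h : Rel (fun j b => (b.1, b.2 + (j : ZMod p))) n c)
    (hc : AllCh (fun l => GoodLab l ∧ l.length = n + 1) (c n)) : False := by
  have h1 : Rel (fun j b => (b.1, b.2 + (j : ZMod p))) n
      (fun i => ext (S (ZMod p) (topL b0)) (c i)) := by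
    refine h.map (ext (S (ZMod p) (topL b0))) (fun c => bd_extS _ c) ?_ ?_
    · simp
    · intro j c
      exact extS_act (topL b0) (topL b0) _ _ (fun l hl => topL_map b0 (· + (j : ZMod p)) l hl) c
  have h2 : Rel (fun j b => b + (j : ZMod p)) n
      (fun i => act Prod.snd (ext (S (ZMod p) (topL b0)) (c i))) := by
    refine h1.map (act Prod.snd) (fun c => (act_bd _ c).symm) ?_ ?_
    · simp
    · intro j c
      have : (act Prod.snd ∘ₗ act (fun b : Fin k × ZMod p => (b.1, b.2 + (j : ZMod p))) :
          Ch (ZMod p) (Fin k × ZMod p) →ₗ[ZMod p] Ch (ZMod p) (ZMod p)) =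
          act (fun b : ZMod p => b + (j : ZMod p)) ∘ₗ act Prod.snd := by
        apply hom_ext
        intro l
        simp [Function.comp_def]
      exact LinearMap.congr_fun this c
  have h3 := pairing n (fun i => act Prod.snd (ext (S (ZMod p) (topL b0)) (c i))) h2.1
    (by
      intro i hi
      have := h2.2 i hi
      simpa using this) n le_rfl
  have h4 : AllCh Dup (act Prod.snd (ext (S (ZMod p) (topL b0)) (c n))) := by
    refine AllCh.act (P := fun m => Dup (m.map Prod.snd)) Prod.snd ?_ (fun l hl => hl)
    refine AllCh.ext _ hc ?_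
    rintro l ⟨hgl, hlen⟩
    refine (flag_S (topL b0) l).mono ?_
    intro m hm
    exact dup_of_flag b0 hm k hgl (fun b _ => b.1.2) (by omega)
  rw [vanish n _ h4] at h3
  exact zero_ne_one h3

end Pool.Agent.IndexGap
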