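import Mathlib
import Pool.Agent.Lib.MP_6f03fc_co.Defs
import Pool.Agent.Lib.MP_6f03fc_co.Chain

/-!
# Points of geometric realizations, barycentres and subdivision of chains
-/

namespace Pool.Agent.IndexGap

open Finsupp

section pts

variable {V : Type} [Fintype V]

theorem geom_of {K : Cplx V} {x : V → ℝ} (h0 : ∀ v, 0 ≤ x v) (h1 : ∑ v, x v = 1)
    (h2 : ∃ s ∈ K.faces, ∀ v, x v ≠ 0 → v ∈ s) : x ∈ geom K := by
  classical
  obtain ⟨s, hs, h2⟩ := h2
  refine ⟨h0, h1, s.filter (fun v => x v ≠ 0), ?_, ?_⟩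
  · apply K.down_closed s hs _ (Finset.filter_subset _ _)
    by_contra hne
    rw [Finset.not_nonempty_iff_eq_empty] at hne
    have : ∑ v, x v = 0 := by
      apply Finset.sum_eq_zero
      intro v _
      by_contra hv
      have : v ∈ s.filter (fun v => x v ≠ 0) := Finset.mem_filter.2 ⟨h2 v hv, hv⟩
      rw [hne] at this
      simp at this
    rw [h1] at this
    exact one_ne_zero this
  · intro v
    rw [Finset.mem_filter]
    exact ⟨fun h => ⟨h2 v h, h⟩, fun h => h.2⟩

theorem geom_supp {K : Cplx V} {x : V → ℝ} (h : x ∈ geom K) :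
    ∃ s ∈ K.faces, ∀ v, x v ≠ 0 → v ∈ s := by
  obtain ⟨_, _, s, hs, h⟩ := h
  exact ⟨s, hs, fun v hv => (h v).1 hv⟩

variable {G : Type} [Group G] [MulAction G V]

theorem shift_shift (g h : G) (x : V → ℝ) : shift g (shift h x) = shift (g * h) x := by
  funext v
  simp [shift, mul_smul]

theorem shift_one (x : V → ℝ) : shift (1 : G) x = x := by
  funext v
  simp [shift]

theorem sum_shift (g : G) (x : V → ℝ) : ∑ v, shift g x v = ∑ v, x v := by
  unfold shift
  exact Equiv.sum_comp (MulAction.toPerm (g⁻¹ : G)) x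

/-- the complex is invariant under the group -/
def GInv (G : Type) [Group G] [MulAction G V] (K : Cplx V) : Prop :=
  ∀ (g : G) (s : Finset V), s ∈ K.faces → ∃ t ∈ K.faces, ∀ v, v ∈ s → g • v ∈ t

theorem shift_mem {K : Cplx V} (hK : GInv G K) (g : G) {x : V → ℝ} (hx : x ∈ geom K) :
    shift g x ∈ geom K := by
  obtain ⟨s, hs, h⟩ := geom_supp hx
  obtain ⟨t, ht, hst⟩ := hK g s hs
  refine geom_of (fun v => hx.1 _) ((sum_shift g x).trans hx.2.1) ⟨t, ht, fun v hv => ?_⟩
  have := hst (g⁻¹ • v) (h _ hv)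
  rwa [smul_inv_smul] at this

/-- the action on the geometric realization -/
def ga {K : Cplx V} (hK : GInv G K) (g : G) (x : geom K) : geom K :=
  ⟨shift g x.1, shift_mem hK g x.2⟩

theorem single_mem [DecidableEq V] (K : Cplx V) (v : V) : (Pi.single v (1 : ℝ)) ∈ geom K := by
  refine geom_of ?_ ?_ ⟨{v}, K.singleton_mem v, ?_⟩
  · intro w
    by_cases h : w = v
    · subst h; simp
    · simp [h]
  · simp
  · intro w hw
    by_contra h
    rw [Finset.mem_singleton] at h
    simp [h] at hw

/-- a vertex as a point -/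
def vtx [DecidableEq V] (K : Cplx V) (v : V) : geom K := ⟨Pi.single v 1, single_mem K v⟩

theorem ga_vtx [DecidableEq V] {K : Cplx V} (hK : GInv G K) (g : G) (v : V) :
    ga hK g (vtx K v) = vtx K (g • v) := by
  apply Subtype.ext
  funext w
  simp only [ga, vtx, shift]
  by_cases h : w = g • v
  · subst h; simp
  · have : g⁻¹ • w ≠ v := by
      intro h2
      apply h
      rw [← h2, smul_inv_smul]
    simp [h, this]

end pts

section bary

variable {V : Type} [Fintype V] {K : Cplx V}

/-- barycentre of a list of points -/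
noncomputable def bary (l : List (geom K)) : V → ℝ :=
  ((l.length : ℝ)⁻¹) • (l.map (fun x : geom K => (x : V → ℝ))).sum

open Classical in
/-- barycentre as a point of the realization (junk value if it is not) -/
noncomputable def baryP (x0 : geom K) (l : List (geom K)) : geom K :=
  if h : bary l ∈ geom K then ⟨bary l, h⟩ else l.headD x0

/-- the points are in a common simplex -/
def PF (l : List (geom K)) : Prop := ∃ s ∈ K.faces, ∀ x ∈ l, ∀ v, (x : V → ℝ) v ≠ 0 → v ∈ s

theorem bary_mem_hull (l : List (geom K)) (hl : l ≠ []) :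
    bary l ∈ convexHull ℝ {y : V → ℝ | ∃ x ∈ l, (x : V → ℝ) = y} := by
  have hlen : (0 : ℝ) < l.length := by
    have := List.length_pos_iff.2 hl
    exact_mod_cast this
  have key : ∑ i : Fin l.length, ((l.length : ℝ)⁻¹) • ((l.get i : geom K) : V → ℝ) = bary l := by
    rw [bary, ← Finset.smul_sum]
    congr 1
    rw [← List.sum_ofFn]
    congr 1
    apply List.ext_get
    · simp
    · intro i h1 h2
      simp
  rw [← key]
  apply (convex_convexHull ℝ _).sum_mem
  · intro i _
    positivity
  · simp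
    field_simp
  · intro i _
    apply subset_convexHull
    exact ⟨l.get i, List.get_mem l i, rfl⟩

theorem hull_facts {l : List (geom K)} {s : Finset V}
    (hs : ∀ x ∈ l, ∀ v, (x : V → ℝ) v ≠ 0 → v ∈ s) {y : V → ℝ}
    (hy : y ∈ convexHull ℝ {y : V → ℝ | ∃ x ∈ l, (x : V → ℝ) = y}) :
    (∀ v, 0 ≤ y v) ∧ ∑ v, y v = 1 ∧ ∀ v, y v ≠ 0 → v ∈ s := by
  have hsub : {y : V → ℝ | ∃ x ∈ l, (x : V → ℝ) = y} ⊆
      {y : V → ℝ | (∀ v, 0 ≤ y v) ∧ ∑ v, y v = 1 ∧ ∀ v, v ∉ s → y v = 0} := by
    rintro _ ⟨x, hx, rfl⟩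
    refine ⟨x.2.1, x.2.2.1, fun v hv => ?_⟩
    by_contra h
    exact hv (hs x hx v h)
  have hconv : Convex ℝ {y : V → ℝ | (∀ v, 0 ≤ y v) ∧ ∑ v, y v = 1 ∧ ∀ v, v ∉ s → y v = 0} := by
    intro a ha b hb t u ht hu htu
    refine ⟨fun v => ?_, ?_, fun v hv => ?_⟩
    · simp only [Pi.add_apply, Pi.smul_apply, smul_eq_mul]
      have h1 := ha.1 v
      have h2 := hb.1 v
      positivity
    · simp only [Pi.add_apply, Pi.smul_apply, smul_eq_mul]
      rw [Finset.sum_add_distrib, ← Finset.mul_sum, ← Finset.mul_sum, ha.2.1, hb.2.1]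
      linarith
    · simp only [Pi.add_apply, Pi.smul_apply, smul_eq_mul]
      rw [ha.2.2 v hv, hb.2.2 v hv]
      simp
  have := convexHull_min hsub hconv hy
  refine ⟨this.1, this.2.1, fun v hv => ?_⟩
  by_contra h
  exact hv (this.2.2 v h)

theorem baryP_eq (x0 : geom K) {l : List (geom K)} (hl : l ≠ []) (hpf : PF l) :
    ((baryP x0 l : geom K) : V → ℝ) = bary l := by
  obtain ⟨s, hs, h⟩ := hpf
  have hb := hull_facts h (bary_mem_hull l hl)
  have : bary l ∈ geom K := geom_of hb.1 hb.2.1 ⟨s, hs, hb.2.2⟩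
  rw [baryP, dif_pos this]

/-- pairwise distances bounded -/
def Near (r : ℝ) (l : List (geom K)) : Prop := ∀ x ∈ l, ∀ y ∈ l, dist (x : V → ℝ) y ≤ r

theorem dist_bary_le (r : ℝ) (hr : 0 ≤ r) (l : List (geom K)) (n : ℕ) (hn : l.length ≤ n + 1)
    (hN : Near r l) (y : geom K) (hy : y ∈ l) :
    dist (y : V → ℝ) (bary l) ≤ (n : ℝ) / (n + 1) * r := by
  obtain ⟨l1, l2, rfl⟩ := List.append_of_mem hy
  set L : ℝ := ((l1 ++ y :: l2).length : ℝ) with hL
  have hLpos : 0 < L := by
    rw [hL]
    simp only [List.length_append, List.length_cons]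
    positivity
  have hLn : L ≤ n + 1 := by
    rw [hL]
    exact_mod_cast hn
  have hLe : L = (l1.length : ℝ) + (l2.length : ℝ) + 1 := by
    rw [hL]
    simp only [List.length_append, List.length_cons]
    push_cast
    ring
  have hsum : ∀ l' : List (geom K), (∀ x ∈ l', dist (y : V → ℝ) x ≤ r) →
      ‖(l'.length : ℝ) • (y : V → ℝ) - (l'.map (fun x : geom K => (x : V → ℝ))).sum‖ ≤ l'.length * r := by
    intro l'
    induction l' with
    | nil => intro _; simp
    | cons x l' ih =>
      intro h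
      have h1 := ih (fun z hz => h z (List.mem_cons_of_mem _ hz))
      have h2 := h x List.mem_cons_self
      rw [dist_eq_norm] at h2
      have e : (((x :: l').length : ℕ) : ℝ) • (y : V → ℝ) -
          ((x :: l').map (fun x : geom K => (x : V → ℝ))).sum =
          ((l'.length : ℝ) • (y : V → ℝ) - (l'.map (fun x : geom K => (x : V → ℝ))).sum) +
          ((y : V → ℝ) - x) := by
        rw [List.length_cons, List.map_cons, List.sum_cons]
        push_cast
        rw [add_smul, one_smul]
        abel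
      rw [e]
      refine (norm_add_le _ _).trans ?_
      rw [List.length_cons]
      push_cast
      linarith
  have e1 := hsum l1 (fun x hx => hN y hy x (by simp [hx]))
  have e2 := hsum l2 (fun x hx => hN y hy x (by simp [hx]))
  have e3 : (y : V → ℝ) - bary (l1 ++ y :: l2) =
      L⁻¹ • (((l1.length : ℝ) • (y : V → ℝ) - (l1.map (fun x : geom K => (x : V → ℝ))).sum) +
      ((l2.length : ℝ) • (y : V → ℝ) - (l2.map (fun x : geom K => (x : V → ℝ))).sum)) := by
    have h3 : (y : V → ℝ) = L⁻¹ • (L • (y : V → ℝ)) := by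
      rw [smul_smul, inv_mul_cancel₀ hLpos.ne', one_smul]
    rw [bary, ← hL]
    nth_rewrite 1 [h3]
    rw [← smul_sub]
    congr 1
    rw [hLe, add_smul, add_smul, one_smul, List.map_append, List.sum_append, List.map_cons,
      List.sum_cons]
    abel
  rw [dist_eq_norm, e3, norm_smul, Real.norm_eq_abs, abs_of_pos (inv_pos.2 hLpos)]
  have e4 := (norm_add_le ((l1.length : ℝ) • (y : V → ℝ) - (l1.map (fun x : geom K => (x : V → ℝ))).sum)
    ((l2.length : ℝ) • (y : V → ℝ) - (l2.map (fun x : geom K => (x : V → ℝ))).sum)).trans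
    (add_le_add e1 e2)
  have e5 : (l1.length : ℝ) * r + l2.length * r = (L - 1) * r := by
    rw [hLe]; ring
  rw [e5] at e4
  calc L⁻¹ * _ ≤ L⁻¹ * ((L - 1) * r) := by
        apply mul_le_mul_of_nonneg_left e4 (inv_pos.2 hLpos).le
    _ ≤ (n : ℝ) / (n + 1) * r := by
        rw [← mul_assoc]
        apply mul_le_mul_of_nonneg_right _ hr
        rw [inv_mul_eq_div, div_le_div_iff₀ hLpos (by positivity)]
        have : (0 : ℝ) ≤ n := Nat.cast_nonneg n
        nlinarith

theorem flag_bary (x0 : geom K) (n : ℕ) (r : ℝ) (hr : 0 ≤ r) {l m : List (geom K)}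
    (h : Flag (baryP x0) l m) (hpf : PF l) (hN : Near r l) (hn : l.length ≤ n + 1) :
    (∀ y ∈ m, (y : V → ℝ) ∈ convexHull ℝ {y : V → ℝ | ∃ x ∈ l, (x : V → ℝ) = y}) ∧
    Near ((n : ℝ) / (n + 1) * r) m := by
  induction h with
  | nil => 
    constructor
    · intro y hy
      simp at hy
    · intro y hy
      simp at hy
  | cons l i hi m h ih =>
    have hl : l ≠ [] := by
      rintro rfl
      simp at hi
    have hsubl : ∀ x ∈ l.eraseIdx i, x ∈ l := fun x hx => List.mem_of_mem_eraseIdx hx
    obtain ⟨ih1, ih2⟩ := ih (by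
      obtain ⟨s, hs, h⟩ := hpf
      exact ⟨s, hs, fun x hx => h x (hsubl x hx)⟩) (fun x hx y hy => hN x (hsubl x hx) y (hsubl y hy))
      ((List.length_eraseIdx_le l i).trans hn)
    have h1 : ∀ y ∈ m, (y : V → ℝ) ∈ convexHull ℝ {y : V → ℝ | ∃ x ∈ l, (x : V → ℝ) = y} := by
      intro y hy
      refine convexHull_mono ?_ (ih1 y hy)
      rintro _ ⟨x, hx, rfl⟩
      exact ⟨x, hsubl x hx, rfl⟩
    have h2 : ∀ y ∈ m, dist (y : V → ℝ) (bary l) ≤ (n : ℝ) / (n + 1) * r := by
      intro y hy
      obtain ⟨_, ⟨x, hx, rfl⟩, hd⟩ := convexHull_exists_dist_ge (h1 y hy) (bary l)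
      exact hd.trans (dist_bary_le r hr l n hn hN x hx)
    constructor
    · intro y hy
      rcases List.mem_cons.1 hy with rfl | hy
      · rw [baryP_eq x0 hl hpf]
        exact bary_mem_hull l hl
      · exact h1 y hy
    · intro y hy z hz
      rcases List.mem_cons.1 hy with rfl | hy <;> rcases List.mem_cons.1 hz with rfl | hz
      · rw [dist_self]
        positivity
      · rw [baryP_eq x0 hl hpf, dist_comm]
        exact h2 z hz
      · rw [baryP_eq x0 hl hpf]
        exact h2 y hy
      · exact ih2 y hy z hz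

/-- the predicate controlling iterated subdivisions -/
def Good (r : ℝ) (d : ℕ) (l : List (geom K)) : Prop := PF l ∧ Near r l ∧ l.length = d

theorem good_sd {R : Type} [CommRing R] (x0 : geom K) (n : ℕ) (r : ℝ) (hr : 0 ≤ r) (d : ℕ)
    (hd : d ≤ n + 1) {l : List (geom K)}
    (h : Good r d l) : AllCh (Good ((n : ℝ) / (n + 1) * r) d) (S R (baryP x0) l) := by
  obtain ⟨hpf, hN, hlen⟩ := h
  refine AllCh.mono (P' := Good ((n : ℝ) / (n + 1) * r) d) (flag_S (baryP x0) l) ?_
  intro m hm
  have := flag_bary x0 n r hr hm hpf hN (by omega)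
  refine ⟨?_, this.2, by rw [hm.length_eq, hlen]⟩
  obtain ⟨s, hs, h⟩ := hpf
  refine ⟨s, hs, fun x hx v hv => ?_⟩
  exact (hull_facts h (this.1 x hx)).2.2 v hv

end bary

section equi

variable {V : Type} [Fintype V] {K : Cplx V} {G : Type} [Group G] [MulAction G V]

theorem bary_map (hK : GInv G K) (g : G) (l : List (geom K)) :
    bary (l.map (ga hK g)) = shift g (bary l) := by
  have : ((l.map (ga hK g)).map (fun x : geom K => (x : V → ℝ))).sum =
      shift g ((l.map (fun x : geom K => (x : V → ℝ))).sum) := by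
    induction l with
    | nil =>
      funext v
      simp [shift]
    | cons x l ih =>
      rw [List.map_cons, List.map_cons, List.sum_cons, ih, List.map_cons, List.sum_cons]
      funext v
      simp [shift, ga]
  rw [bary, this, bary, List.length_map]
  funext v
  simp [shift]

theorem baryP_map (hK : GInv G K) (x0 : geom K) (g : G) (l : List (geom K)) (hl : l ≠ []) :
    baryP x0 (l.map (ga hK g)) = ga hK g (baryP x0 l) := by
  by_cases h : bary l ∈ geom K
  · have h2 : bary (l.map (ga hK g)) ∈ geom K := by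
      rw [bary_map hK]
      exact shift_mem hK g h
    rw [baryP, baryP, dif_pos h, dif_pos h2]
    apply Subtype.ext
    exact bary_map hK g l
  · have h2 : bary (l.map (ga hK g)) ∉ geom K := by
      rw [bary_map hK]
      intro h2
      apply h
      have := shift_mem hK g⁻¹ h2
      rwa [shift_shift, inv_mul_cancel, shift_one] at this
    rw [baryP, baryP, dif_neg h, dif_neg h2]
    rcases l with _ | ⟨x, l⟩
    · exact absurd rfl hl
    · rfl

end equi

end Pool.Agent.IndexGap
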