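import Mathlib
import Pool.Agent.Lib.MP_6f03fc_co.Subdiv
import Pool.Agent.Lib.MP_6f03fc_co.Labels

/-!
# There is no continuous equivariant map `|E_n G| → |E_k G|` for `k < n`
-/

namespace Pool.Agent.IndexGap

open Finsupp

theorem gInv_orderComplex {G P : Type} [Group G] [PartialOrder P] [MulAction G P]
    (hmono : ∀ (g : G) (a b : P), a ≤ b → g • a ≤ g • b) [Fintype P] :
    GInv G (orderComplex P) := by
  classical
  intro g s hs
  refine ⟨s.image (g • ·), ⟨hs.1.image _, ?_⟩, fun v hv => Finset.mem_image_of_mem _ hv⟩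
  intro x hx y hy _
  rw [Finset.coe_image] at hx hy
  obtain ⟨x, hx, rfl⟩ := hx
  obtain ⟨y, hy, rfl⟩ := hy
  rcases hs.2.total hx hy with h | h
  · exact Or.inl (hmono g _ _ h)
  · exact Or.inr (hmono g _ _ h)

theorem Q.smul_mono {G : Type} [Group G] {n : ℕ} (g : G) (a b : Q G n) (h : a ≤ b) :
    g • a ≤ g • b := by
  rcases h with rfl | h
  · exact le_rfl
  · exact Or.inr h

theorem Q.smul_def {G : Type} [Group G] {n : ℕ} (g : G) (a : Q G n) :
    g • a = ⟨g * a.grp, a.lev⟩ := rfl

theorem Q.ext' {G : Type} {n : ℕ} {a b : Q G n} (h1 : a.grp = b.grp) (h2 : a.lev = b.lev) :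
    a = b := by
  cases a; cases b; simp_all

theorem gInvQ (G : Type) [Group G] [Fintype G] (n : ℕ) : GInv G (orderComplex (Q G n)) :=
  gInv_orderComplex Q.smul_mono

theorem geom_eq {V : Type} [Fintype V] (K : Cplx V) :
    geom K = ⋃ s ∈ K.faces, {x : V → ℝ | (∀ v, 0 ≤ x v) ∧ ∑ v, x v = 1 ∧ ∀ v, v ∉ s → x v = 0} := by
  ext x
  simp only [Set.mem_iUnion, Set.mem_ofPred_eq, exists_prop]
  constructor
  · intro hx
    obtain ⟨s, hs, h⟩ := geom_supp hx
    refine ⟨s, hs, hx.1, hx.2.1, fun v hv => ?_⟩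
    by_contra h2
    exact hv (h v h2)
  · rintro ⟨s, hs, h0, h1, h⟩
    refine geom_of h0 h1 ⟨s, hs, fun v hv => ?_⟩
    by_contra h2
    exact hv (h v h2)

theorem isCompact_geom {V : Type} [Fintype V] (K : Cplx V) : IsCompact (geom K) := by
  have h1 : IsCompact (Set.pi Set.univ (fun _ : V => Set.Icc (0 : ℝ) 1)) :=
    isCompact_univ_pi (fun _ => isCompact_Icc)
  refine h1.of_isClosed_subset ?_ ?_
  · rw [geom_eq]
    apply Set.Finite.isClosed_biUnion (Set.toFinite _)
    intro s _
    have e : {x : V → ℝ | (∀ v, 0 ≤ x v) ∧ ∑ v, x v = 1 ∧ ∀ v, v ∉ s → x v = 0} =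
        (⋂ v, {x : V → ℝ | 0 ≤ x v}) ∩ {x : V → ℝ | ∑ v, x v = 1} ∩
        (⋂ v, {x : V → ℝ | v ∉ s → x v = 0}) := by
      ext x
      simp only [Set.mem_ofPred_eq, Set.mem_inter_iff, Set.mem_iInter]
      tauto
    rw [e]
    refine IsClosed.inter (IsClosed.inter ?_ ?_) ?_
    · exact isClosed_iInter (fun v => isClosed_le continuous_const (continuous_apply v))
    · exact isClosed_eq (continuous_finsetSum _ (fun v _ => continuous_apply v)) continuous_const
    · apply isClosed_iInter
      intro v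
      by_cases hv : v ∈ s
      · have : {x : V → ℝ | v ∉ s → x v = 0} = Set.univ := by
          ext x; simp [hv]
        rw [this]
        exact isClosed_univ
      · have : {x : V → ℝ | v ∉ s → x v = 0} = {x : V → ℝ | x v = 0} := by
          ext x; simp [hv]
        rw [this]
        exact isClosed_eq (continuous_apply v) continuous_const
  · intro x hx v _
    refine ⟨hx.1 v, ?_⟩
    rw [← hx.2.1]
    exact Finset.single_le_sum (fun w _ => hx.1 w) (Finset.mem_univ v)

theorem near_one {V : Type} [Fintype V] {K : Cplx V} (l : List (geom K)) : Near 1 l := by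
  have key : ∀ x : geom K, ∀ v, (x : V → ℝ) v ≤ 1 := by
    intro x v
    rw [← x.2.2.1]
    exact Finset.single_le_sum (fun w _ => x.2.1 w) (Finset.mem_univ v)
  intro x _ y _
  rw [dist_pi_le_iff zero_le_one]
  intro v
  rw [Real.dist_eq, abs_le]
  have h1 := key x v
  have h2 := key y v
  have h3 := x.2.1 v
  have h4 := y.2.1 v
  constructor <;> linarith

section chains

variable {p : ℕ} [hp : Fact p.Prime] {V : Type} [Fintype V] {K : Cplx V} {G : Type} [Group G]
  [MulAction G V]

theorem act_act {R : Type} [CommRing R] {α β γ : Type} (f : β → γ) (g : α → β) (c : Ch R α) :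
    act f (act g c) = act (fun x => f (g x)) c := by
  have : (act f ∘ₗ act g : Ch R α →ₗ[R] Ch R γ) = act (fun x => f (g x)) := by
    apply hom_ext
    intro l
    simp [Function.comp_def]
  exact LinearMap.congr_fun this c

theorem act_id' {R : Type} [CommRing R] {α : Type} (f : α → α) (hf : ∀ x, f x = x) (c : Ch R α) :
    act f c = c := by
  have hf' : f = id := funext hf
  have : (act f : Ch R α →ₗ[R] Ch R α) = LinearMap.id := by
    apply hom_ext
    intro l
    simp [hf']
  exact LinearMap.congr_fun this c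

theorem ga_ga (hK : GInv G K) (g h : G) (x : geom K) : ga hK g (ga hK h x) = ga hK (g * h) x := by
  apply Subtype.ext
  exact shift_shift g h x.1

theorem ga_one (hK : GInv G K) (x : geom K) : ga hK (1 : G) x = x := by
  apply Subtype.ext
  exact shift_one x.1

/-- the operator applied to the `i`-th chain -/
noncomputable def zop (p : ℕ) [Fact p.Prime] (hK : GInv G K) (a : G) (i : ℕ)
    (c : Ch (ZMod p) (geom K)) : Ch (ZMod p) (geom K) :=
  if Even i then act (ga hK (a ^ 1)) c - c else ∑ j ∈ Finset.range p, act (ga hK (a ^ j)) c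

theorem zop_zop (hK : GInv G K) (a : G) (ha : a ^ p = 1) (i : ℕ)
    (c : Ch (ZMod p) (geom K)) : zop p hK a (i + 1) (zop p hK a i c) = 0 := by
  have key : ∀ j : ℕ, ∀ c : Ch (ZMod p) (geom K),
      act (ga hK (a ^ j)) (act (ga hK (a ^ 1)) c) = act (ga hK (a ^ (j + 1))) c := by
    intro j c
    rw [act_act]
    congr 2
    funext x
    rw [ga_ga, ← pow_add]
  have key' : ∀ j : ℕ, ∀ c : Ch (ZMod p) (geom K),
      act (ga hK (a ^ 1)) (act (ga hK (a ^ j)) c) = act (ga hK (a ^ (j + 1))) c := by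
    intro j c
    rw [act_act]
    congr 2
    funext x
    rw [ga_ga, ← pow_add, add_comm]
  have tele : ∀ c : Ch (ZMod p) (geom K), ∑ j ∈ Finset.range p,
      (act (ga hK (a ^ (j + 1))) c - act (ga hK (a ^ j)) c) = 0 := by
    intro c
    rw [Finset.sum_range_sub (fun j => act (ga hK (a ^ j)) c), ha, pow_zero, sub_self]
  by_cases hi : Even i
  · have hi' : ¬ Even (i + 1) := by
      rw [Nat.even_add_one]
      simpa using hi
    rw [zop, if_neg hi', zop, if_pos hi]
    simp only [map_sub, key]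
    exact tele c
  · have hi' : Even (i + 1) := Nat.even_add_one.2 hi
    rw [zop, if_pos hi', zop, if_neg hi, map_sum]
    simp only [key']
    rw [← Finset.sum_sub_distrib]
    exact tele c

theorem bd_zop (hK : GInv G K) (a : G) (i : ℕ)
    (c : Ch (ZMod p) (geom K)) : bd (zop p hK a i c) = zop p hK a i (bd c) := by
  rw [zop, zop]
  split_ifs
  · rw [map_sub, act_bd]
  · rw [map_sum]
    simp only [act_bd]

/-- iterated subdivision -/
noncomputable def sdN (p : ℕ) [Fact p.Prime] (x0 : geom K) : ℕ →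
    (Ch (ZMod p) (geom K) →ₗ[ZMod p] Ch (ZMod p) (geom K))
  | 0 => LinearMap.id
  | (N + 1) => ext (S (ZMod p) (baryP x0)) ∘ₗ sdN p x0 N

theorem rel_sdN (hK : GInv G K) (a : G) (x0 : geom K) (n : ℕ) (c : ℕ → Ch (ZMod p) (geom K))
    (h : Rel (fun j => ga hK (a ^ j)) n c) (N : ℕ) :
    Rel (fun j => ga hK (a ^ j)) n (fun i => sdN p x0 N (c i)) := by
  induction N with
  | zero => exact h
  | succ N ih =>
    refine ih.map (ext (S (ZMod p) (baryP x0))) (fun c => bd_extS _ c) ?_ ?_
    · simp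
    · intro j c
      exact extS_act (baryP x0) (baryP x0) _ _ (fun l hl => baryP_map hK x0 (a ^ j) l hl) c

theorem good_sdN (x0 : geom K) (n d : ℕ) (hd : d ≤ n + 1) (c : Ch (ZMod p) (geom K))
    (hc : AllCh (Good 1 d) c) (N : ℕ) :
    AllCh (Good (((n : ℝ) / (n + 1)) ^ N) d) (sdN p x0 N c) := by
  induction N with
  | zero => simpa [sdN] using hc
  | succ N ih =>
    refine AllCh.ext _ ih ?_
    intro l hl
    have := good_sd (R := ZMod p) x0 n (((n : ℝ) / (n + 1)) ^ N) (by positivity) d hd hl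
    rwa [pow_succ']

end chains

section EG

variable {p : ℕ} [hp : Fact p.Prime] {G : Type} [Group G] [Fintype G] [DecidableEq G]

/-- the vertex `(1, i)` of `E_n G` -/
def vt (G : Type) [Group G] [Fintype G] [DecidableEq G] (n i : ℕ) :
    geom (orderComplex (Q G n)) := vtx _ ⟨1, Fin.ofNat (n + 1) i⟩

/-- the basic chains -/
noncomputable def hch (p : ℕ) [Fact p.Prime] (n : ℕ) (a : G) :
    ℕ → Ch (ZMod p) (geom (orderComplex (Q G n)))
  | 0 => pre (vt G n 0) (single [] 1)
  | (i + 1) => pre (vt G n (i + 1)) (zop p (gInvQ G n) a i (hch p n a i))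

theorem bd_z_hch (n : ℕ) (a : G) (ha : a ^ p = 1) (i : ℕ) :
    bd (zop p (gInvQ G n) a i (hch p n a i)) = 0 := by
  induction i with
  | zero =>
    rw [bd_zop, hch, bd_pre, bd_single, bdL_nil]
    simp [zop]
  | succ i ih =>
    rw [bd_zop, hch, bd_pre, ih, map_zero, sub_zero, zop_zop _ _ ha]

theorem rel_hch (n : ℕ) (a : G) (ha : a ^ p = 1) :
    Rel (fun j => ga (gInvQ G n) (a ^ j)) n (hch p n a) := by
  constructor
  · rw [hch, bd_pre, bd_single, bdL_nil]
    simp
  · intro i _
    rw [hch, bd_pre, bd_z_hch n a ha, map_zero, sub_zero]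
    rfl

/-- control on the vertices in a list -/
def Lv (n i : ℕ) (l : List (geom (orderComplex (Q G n)))) : Prop :=
  l.length = i + 1 ∧ ∃ s : Finset (Q G n), IsChain (· ≤ ·) (s : Set (Q G n)) ∧
    (∀ v ∈ s, (v.lev : ℕ) ≤ i) ∧ ∀ x ∈ l, ∀ v, (x : Q G n → ℝ) v ≠ 0 → v ∈ s

theorem lv_zop (n i : ℕ) (a : G) (c : Ch (ZMod p) (geom (orderComplex (Q G n))))
    (hc : AllCh (Lv n i) c) (j : ℕ) : AllCh (Lv n i) (zop p (gInvQ G n) a j c) := by
  have key : ∀ g : G, AllCh (Lv n i) (act (ga (gInvQ G n) g) c) := by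
    intro g
    refine AllCh.act _ hc ?_
    rintro l ⟨hlen, s, hs, hl, h⟩
    refine ⟨by rw [List.length_map, hlen], s.image (g • ·), ?_, ?_, ?_⟩
    · intro x hx y hy _
      rw [Finset.coe_image] at hx hy
      obtain ⟨x, hx, rfl⟩ := hx
      obtain ⟨y, hy, rfl⟩ := hy
      rcases hs.total hx hy with h | h
      · exact Or.inl (Q.smul_mono g _ _ h)
      · exact Or.inr (Q.smul_mono g _ _ h)
    · intro v hv
      obtain ⟨w, hw, rfl⟩ := Finset.mem_image.1 hv
      exact hl w hw
    · intro x hx v hv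
      obtain ⟨y, hy, rfl⟩ := List.mem_map.1 hx
      have := h y hy (g⁻¹ • v) hv
      rw [Finset.mem_image]
      exact ⟨g⁻¹ • v, this, by rw [smul_inv_smul]⟩
  rw [zop]
  split_ifs
  · exact (key _).sub hc
  · exact AllCh.sum _ _ (fun j _ => key _)

theorem lv_hch (n : ℕ) (a : G) (i : ℕ) (hi : i ≤ n) : AllCh (Lv n i) (hch p n a i) := by
  have hvt : ∀ i ≤ n, ∀ v, ((vt G n i : geom (orderComplex (Q G n))) : Q G n → ℝ) v ≠ 0 →
      v.grp = 1 ∧ (v.lev : ℕ) = i := by
    intro i hi v hv
    by_cases h : v = ⟨1, Fin.ofNat (n + 1) i⟩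
    · rw [h]
      refine ⟨rfl, ?_⟩
      simp only [Fin.ofNat]
      exact Nat.mod_eq_of_lt (by omega)
    · exfalso
      apply hv
      simp only [vt, vtx]
      rw [Pi.single_eq_of_ne h]
  induction i with
  | zero =>
    rw [hch, pre_single]
    apply AllCh.single
    refine ⟨rfl, {⟨1, Fin.ofNat (n + 1) 0⟩}, by simp, ?_, ?_⟩
    · intro v hv
      rw [Finset.mem_singleton] at hv
      rw [hv]
      simp [Fin.ofNat]
    · intro x hx v hv
      rw [List.mem_singleton] at hx
      rw [hx] at hv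
      rw [Finset.mem_singleton]
      obtain ⟨h1, h2⟩ := hvt 0 (Nat.zero_le _) v hv
      apply Q.ext' h1
      apply Fin.ext
      simp [h2, Fin.ofNat]
  | succ i ih =>
    rw [hch]
    refine AllCh.pre _ (lv_zop n i a _ (ih (by omega)) i) ?_
    rintro l ⟨hlen, s, hs, hl, h⟩
    refine ⟨by rw [List.length_cons, hlen], insert ⟨1, Fin.ofNat (n + 1) (i + 1)⟩ s, ?_, ?_, ?_⟩
    · rw [Finset.coe_insert]
      apply hs.insert
      intro b hb _
      right
      right
      have h1 := hl b hb
      change b.lev < Fin.ofNat (n + 1) (i + 1)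
      rw [Fin.lt_def]
      simp only [Fin.ofNat]
      rw [Nat.mod_eq_of_lt (by omega)]
      omega
    · intro v hv
      rcases Finset.mem_insert.1 hv with rfl | hv
      · simp only [Fin.ofNat]
        exact Nat.mod_le _ _
      · exact (hl v hv).trans (by omega)
    · intro x hx v hv
      rcases List.mem_cons.1 hx with rfl | hx
      · obtain ⟨h1, h2⟩ := hvt (i + 1) hi v hv
        apply Finset.mem_insert.2
        left
        apply Q.ext' h1
        apply Fin.ext
        simp only [Fin.ofNat]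
        rw [h2, Nat.mod_eq_of_lt (by omega)]
      · exact Finset.mem_insert_of_mem (h x hx v hv)

theorem good_hch (n : ℕ) (a : G) (i : ℕ) (hi : i ≤ n) :
    AllCh (Good 1 (i + 1)) (hch p n a i) := by
  refine (lv_hch n a i hi).mono ?_
  rintro l ⟨hlen, s, hs, _, h⟩
  refine ⟨⟨s, ⟨?_, hs⟩, h⟩, near_one l, hlen⟩
  rcases l with _ | ⟨x, l⟩
  · simp at hlen
  · have h1 : ∃ v, (x : Q G n → ℝ) v ≠ 0 := by
      by_contra hcon
      push Not at hcon
      have := x.2.2.1
      rw [Finset.sum_eq_zero (fun v _ => hcon v)] at this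
      exact zero_ne_one this
    obtain ⟨v, hv⟩ := h1
    exact ⟨v, h x List.mem_cons_self v hv⟩

/-- equivariant map from `G` to `ZMod p` -/
theorem exists_rho (a : G) (ha : orderOf a = p) : ∃ r : G → ZMod p, ∀ g, r (a * g) = r g + 1 := by
  classical
  have hmem : ∀ g : G, g * (Quotient.out (Quotient.mk (QuotientGroup.rightRel (Subgroup.zpowers a)) g))⁻¹ ∈
      Subgroup.zpowers a := by
    intro g
    have := Quotient.exact (Quotient.out_eq (Quotient.mk (QuotientGroup.rightRel (Subgroup.zpowers a)) g))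
    have h2 := QuotientGroup.rightRel_apply.1 this
    exact h2
  choose z hz using fun g => Subgroup.mem_zpowers_iff.1 (hmem g)
  refine ⟨fun g => (z g : ZMod p), fun g => ?_⟩
  have hq : (Quotient.mk (QuotientGroup.rightRel (Subgroup.zpowers a)) (a * g)) =
      Quotient.mk (QuotientGroup.rightRel (Subgroup.zpowers a)) g := by
    apply Quotient.sound
    apply QuotientGroup.rightRel_apply.2
    rw [mul_inv_rev, ← mul_assoc, mul_inv_cancel, one_mul]
    exact Subgroup.inv_mem _ (Subgroup.mem_zpowers a)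
  have h1 := hz (a * g)
  rw [hq, mul_assoc, ← hz g, ← zpow_one_add, zpow_eq_zpow_iff_modEq, ha] at h1
  have h2 := (ZMod.intCast_eq_intCast_iff _ _ _).2 h1
  change (z (a * g) : ZMod p) = (z g : ZMod p) + 1
  rw [h2]
  push_cast
  ring

end EG

end Pool.Agent.IndexGap
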