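import Mathlib
import Pool.Agent.Lib.MP_6f03fc_co.Dold

/-!
# There is no continuous equivariant map `|E_n G| → |E_k G|` for `k < n`: the theorem
-/

namespace Pool.Agent.IndexGap

open Finsupp

section lab

variable {G : Type} [Group G] [Fintype G] {k : ℕ}

/-- total weight of a level -/
noncomputable def lw (y : Q G k → ℝ) (j : Fin (k + 1)) : ℝ := ∑ g : G, y ⟨g, j⟩

omit [Group G] in
theorem sum_lw (y : Q G k → ℝ) : ∑ j, lw y j = ∑ v, y v := by
  unfold lw
  rw [Finset.sum_comm, ← Fintype.sum_prod_type']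
  exact Fintype.sum_equiv (Q.equivProd G k).symm _ _ (fun x => rfl)

theorem lw_shift (g : G) (y : Q G k → ℝ) (j : Fin (k + 1)) : lw (shift g y) j = lw y j := by
  unfold lw
  have : ∀ h : G, shift g y ⟨h, j⟩ = y ⟨g⁻¹ * h, j⟩ := fun h => rfl
  simp only [this]
  exact Equiv.sum_comp (Equiv.mulLeft g⁻¹) (fun h => y ⟨h, j⟩)

open Classical in
/-- choose a level of large weight -/
noncomputable def pick (L : Fin (k + 1) → ℝ) : Fin (k + 1) :=
  if h : ∃ j, 1 / ((k : ℝ) + 1) ≤ L j then h.choose else 0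

omit [Group G] in
theorem pick_spec {y : Q G k → ℝ} (hy : y ∈ geom (orderComplex (Q G k))) :
    1 / ((k : ℝ) + 1) ≤ lw y (pick (lw y)) := by
  have h : ∃ j, 1 / ((k : ℝ) + 1) ≤ lw y j := by
    by_contra hcon
    push Not at hcon
    have h1 : ∑ j, lw y j < ∑ _j : Fin (k + 1), 1 / ((k : ℝ) + 1) :=
      Finset.sum_lt_sum_of_nonempty Finset.univ_nonempty (fun j _ => hcon j)
    rw [sum_lw, hy.2.1] at h1
    simp only [Finset.sum_const, Finset.card_univ, Fintype.card_fin, nsmul_eq_mul] at h1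
    push_cast at h1
    rw [mul_one_div_cancel (by positivity)] at h1
    exact lt_irrefl _ h1
  rw [pick, dif_pos h]
  exact h.choose_spec

omit [Group G] in
theorem uniq_lev {y : Q G k → ℝ} (hy : y ∈ geom (orderComplex (Q G k))) {g h : G}
    {j : Fin (k + 1)} (h1 : y ⟨g, j⟩ ≠ 0) (h2 : y ⟨h, j⟩ ≠ 0) : g = h := by
  obtain ⟨s, hs, hsup⟩ := geom_supp hy
  rcases hs.2.total (hsup _ h1) (hsup _ h2) with h | h
  · rcases h with h | h
    · exact congrArg Q.grp h
    · exact absurd h (lt_irrefl _)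
  · rcases h with h | h
    · exact (congrArg Q.grp h).symm
    · exact absurd h (lt_irrefl _)

open Classical in
/-- the group label -/
noncomputable def glab (y : Q G k → ℝ) : G :=
  if h : ∃ g, y ⟨g, pick (lw y)⟩ ≠ 0 then h.choose else 1

omit [Group G] in
theorem glab_ex {y : Q G k → ℝ} (hy : y ∈ geom (orderComplex (Q G k))) :
    ∃ g, y ⟨g, pick (lw y)⟩ ≠ 0 := by
  by_contra hcon
  push Not at hcon
  have h1 := pick_spec hy
  have h2 : lw y (pick (lw y)) = 0 := Finset.sum_eq_zero (fun g _ => hcon g)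
  rw [h2] at h1
  have : (0 : ℝ) < 1 / ((k : ℝ) + 1) := by positivity
  linarith

theorem glab_ne {y : Q G k → ℝ} (hy : y ∈ geom (orderComplex (Q G k))) :
    y ⟨glab y, pick (lw y)⟩ ≠ 0 := by
  rw [glab, dif_pos (glab_ex hy)]
  exact (glab_ex hy).choose_spec

theorem glab_ge {y : Q G k → ℝ} (hy : y ∈ geom (orderComplex (Q G k))) :
    1 / ((k : ℝ) + 1) ≤ y ⟨glab y, pick (lw y)⟩ := by
  have h1 := pick_spec hy
  have h2 : lw y (pick (lw y)) = y ⟨glab y, pick (lw y)⟩ := by
    apply Finset.sum_eq_single_of_mem _ (Finset.mem_univ _)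
    intro g _ hg
    by_contra h
    exact hg (uniq_lev hy h (glab_ne hy))
  rwa [h2] at h1

theorem pick_shift (g : G) (y : Q G k → ℝ) : pick (lw (shift g y)) = pick (lw y) := by
  have : lw (shift g y) = lw y := funext (lw_shift g y)
  rw [this]

theorem glab_shift (g : G) {y : Q G k → ℝ} (hy : y ∈ geom (orderComplex (Q G k))) :
    glab (shift g y) = g * glab y := by
  have hy' : shift g y ∈ geom (orderComplex (Q G k)) := shift_mem (gInvQ G k) g hy
  apply uniq_lev hy' (glab_ne hy')
  rw [pick_shift]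
  change y (g⁻¹ • (⟨g * glab y, pick (lw y)⟩ : Q G k)) ≠ 0
  rw [Q.smul_def]
  simp only [inv_mul_cancel_left]
  exact glab_ne hy

end lab

/-- Dold's theorem for the complexes `E_n G`. -/
theorem dold (G : Type) [Group G] [Fintype G] [Nontrivial G] {n k : ℕ} (hk : k < n) :
    ¬ ExistsTopMap G (orderComplex (Q G n)) (orderComplex (Q G k)) := by
  classical
  rintro ⟨f, hf⟩
  -- a prime and an element of that order
  obtain ⟨p, hp, hdvd⟩ := Nat.exists_prime_and_dvd
    (n := Fintype.card G) (Fintype.one_lt_card.ne')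
  have : Fact p.Prime := ⟨hp⟩
  obtain ⟨a, ha⟩ := exists_prime_orderOf_dvd_card p hdvd
  have hap : a ^ p = 1 := by rw [← ha]; exact pow_orderOf_eq_one a
  obtain ⟨r, hr⟩ := exists_rho a ha
  have hr' : ∀ j : ℕ, ∀ g, r (a ^ j * g) = r g + (j : ZMod p) := by
    intro j
    induction j with
    | zero => intro g; simp
    | succ j ih =>
      intro g
      rw [pow_succ', mul_assoc, hr, ih]
      push_cast
      ring
  -- uniform continuity
  have : CompactSpace (geom (orderComplex (Q G n))) :=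
    isCompact_iff_compactSpace.1 (isCompact_geom _)
  have huc := CompactSpace.uniformContinuous_of_continuous f.continuous
  rw [Metric.uniformContinuous_iff] at huc
  obtain ⟨δ, hδ, huc⟩ := huc (1 / ((k : ℝ) + 1)) (by positivity)
  obtain ⟨N, hN⟩ := exists_pow_lt_of_lt_one hδ
    (show (n : ℝ) / (n + 1) < 1 by rw [div_lt_one (by positivity)]; linarith)
  -- the labels
  set lam : geom (orderComplex (Q G n)) → Fin (k + 1) × ZMod p := fun x =>
    (pick (lw (f x : Q G k → ℝ)), r (glab (f x : Q G k → ℝ))) with hlam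
  have hlamT : ∀ j : ℕ, ∀ x, lam (ga (gInvQ G n) (a ^ j) x) =
      ((lam x).1, (lam x).2 + (j : ZMod p)) := by
    intro j x
    have h1 := hf (a ^ j) x (ga (gInvQ G n) (a ^ j) x) rfl
    rw [hlam]
    simp only
    rw [h1, pick_shift, glab_shift _ (f x).2, hr']
  have hlamG : ∀ x y : geom (orderComplex (Q G n)), dist (x : Q G n → ℝ) y < δ →
      (lam x).1 = (lam y).1 → (lam x).2 = (lam y).2 := by
    intro x y hxy hlev
    have h1 := huc (a := x) (b := y) (by rwa [Subtype.dist_eq])
    rw [Subtype.dist_eq] at h1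
    simp only [hlam] at hlev ⊢
    congr 1
    by_contra hne
    have h2 := glab_ge (f x).2
    have h3 : (f y : Q G k → ℝ) ⟨glab (f x : Q G k → ℝ), pick (lw (f x : Q G k → ℝ))⟩ = 0 := by
      by_contra h4
      apply hne
      rw [hlev] at h4
      exact uniq_lev (f y).2 h4 (glab_ne (f y).2)
    have h5 := dist_le_pi_dist (f x : Q G k → ℝ) (f y : Q G k → ℝ)
      ⟨glab (f x : Q G k → ℝ), pick (lw (f x : Q G k → ℝ))⟩
    rw [h3, Real.dist_eq, sub_zero] at h5
    have h6 := le_abs_self ((f x : Q G k → ℝ) ⟨glab (f x : Q G k → ℝ), pick (lw (f x : Q G k → ℝ))⟩)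
    linarith
  -- the chains
  have hrel := rel_sdN (gInvQ G n) a (vt G n 0) n (hch p n a) (rel_hch n a hap) N
  have hrel2 : Rel (fun (j : ℕ) (b : Fin (k + 1) × ZMod p) => (b.1, b.2 + (j : ZMod p))) n
      (fun i => act lam (sdN p (vt G n 0) N (hch p n a i))) := by
    refine hrel.map (act lam) (fun c => (act_bd _ c).symm) (by simp) ?_
    intro j c
    rw [act_act, act_act]
    congr 2
    funext x
    exact hlamT j x
  have hgood := good_sdN (vt G n 0) n (n + 1) le_rfl (hch p n a n) (good_hch n a n le_rfl) N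
  refine no_label (p := p) (k := k + 1) (n := n) hk (0, 0) _ hrel2 ?_
  refine AllCh.act lam hgood ?_
  rintro l ⟨_, hnear, hlen⟩
  refine ⟨?_, by rw [List.length_map, hlen]⟩
  intro b hb b' hb' hbb
  obtain ⟨x, hx, rfl⟩ := List.mem_map.1 hb
  obtain ⟨y, hy, rfl⟩ := List.mem_map.1 hb'
  exact hlamG x y ((hnear x hx y hy).trans_lt hN) hbb

end Pool.Agent.IndexGap
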