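import Mathlib
import Pool.Agent.Lib.MP_6f03fc_co.Dold2
import Pool.Agent.Lib.MP_6f03fc_co.Construct

/-!
# Extending equivariant maps over the new free orbits
-/

namespace Pool.Agent.IndexGap

theorem glue {X W : Type*} [TopologicalSpace X] [TopologicalSpace W] {ι : Type*} [Finite ι]
    (C : ι → Set X) (hC : ∀ i, IsClosed (C i)) (hcov : ∀ x, ∃ i, x ∈ C i)
    (φ : ∀ i, C(C i, W))
    (hag : ∀ i j x (hi : x ∈ C i) (hj : x ∈ C j), φ i ⟨x, hi⟩ = φ j ⟨x, hj⟩) :
    ∃ Φ : C(X, W), ∀ i (x : X) (hx : x ∈ C i), Φ x = φ i ⟨x, hx⟩ := by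
  choose idx hidx using hcov
  have key : ∀ i (x : X) (hx : x ∈ C i), φ (idx x) ⟨x, hidx x⟩ = φ i ⟨x, hx⟩ :=
    fun i x hx => hag _ _ x _ _
  refine ⟨⟨fun x => φ (idx x) ⟨x, hidx x⟩, ?_⟩, fun i x hx => key i x hx⟩
  refine (locallyFinite_of_finite C).continuous ?_ hC ?_
  · rw [Set.eq_univ_iff_forall]
    intro x
    exact Set.mem_iUnion.2 ⟨idx x, hidx x⟩
  · intro i
    rw [continuousOn_iff_continuous_domRestrict]
    have : (C i).domRestrict (fun x => φ (idx x) ⟨x, hidx x⟩) = φ i := by
      funext x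
      exact key i x.1 x.2
    rw [this]
    exact (φ i).continuous

theorem joined_of_face {V : Type} [Fintype V] {K : Cplx V} (x y : geom K)
    (h : ∃ s ∈ K.faces, (∀ v, (x : V → ℝ) v ≠ 0 → v ∈ s) ∧ ∀ v, (y : V → ℝ) v ≠ 0 → v ∈ s) :
    Joined x y := by
  obtain ⟨s, hs, hx, hy⟩ := h
  have hmem : ∀ t : unitInterval, (1 - (t : ℝ)) • (x : V → ℝ) + (t : ℝ) • (y : V → ℝ) ∈ geom K := by
    intro t
    have ht := t.2
    refine geom_of ?_ ?_ ⟨s, hs, ?_⟩
    · intro v
      have h1 := x.2.1 v
      have h2 := y.2.1 v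
      have h3 : 0 ≤ 1 - (t : ℝ) := by linarith [ht.2]
      have h4 : 0 ≤ (t : ℝ) := ht.1
      simp only [Pi.add_apply, Pi.smul_apply, smul_eq_mul]
      positivity
    · simp only [Pi.add_apply, Pi.smul_apply, smul_eq_mul]
      rw [Finset.sum_add_distrib, ← Finset.mul_sum, ← Finset.mul_sum, x.2.2.1, y.2.2.1]
      ring
    · intro v hv
      by_contra hvs
      apply hv
      have h1 : (x : V → ℝ) v = 0 := by
        by_contra h; exact hvs (hx v h)
      have h2 : (y : V → ℝ) v = 0 := by
        by_contra h; exact hvs (hy v h)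
      simp [h1, h2]
  refine ⟨⟨⟨fun t => ⟨_, hmem t⟩, ?_⟩, ?_, ?_⟩⟩
  · apply Continuous.subtype_mk
    fun_prop
  · apply Subtype.ext
    simp
  · apply Subtype.ext
    simp

/-- `|E_n G|` is path connected for `n ≥ 1`. -/
theorem joined_EG {G : Type} [Group G] [Fintype G] [DecidableEq G] {n : ℕ} (hn : 1 ≤ n)
    (x : geom (orderComplex (Q G n))) : Joined (vt G n 0) x := by
  have hpair : ∀ v w : Q G n, v.lev ≠ w.lev →
      Joined (vtx (orderComplex (Q G n)) v) (vtx (orderComplex (Q G n)) w) := by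
    intro v w hvw
    apply joined_of_face
    refine ⟨{v, w}, ⟨by simp, ?_⟩, ?_, ?_⟩
    · rw [Finset.coe_pair]
      rcases lt_or_gt_of_ne hvw with h | h
      · exact IsChain.pair (Or.inr h)
      · rw [Set.pair_comm]
        exact IsChain.pair (Or.inr h)
    · intro u hu
      by_cases h : u = v
      · simp [h]
      · exfalso
        apply hu
        simp only [vtx]
        rw [Pi.single_eq_of_ne h]
    · intro u hu
      by_cases h : u = w
      · simp [h]
      · exfalso
        apply hu
        simp only [vtx]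
        rw [Pi.single_eq_of_ne h]
  have h1 : ∃ v, (x : Q G n → ℝ) v ≠ 0 := by
    by_contra hcon
    push Not at hcon
    have := x.2.2.1
    rw [Finset.sum_eq_zero (fun v _ => hcon v)] at this
    exact zero_ne_one this
  obtain ⟨v, hv⟩ := h1
  have h2 : Joined (vtx (orderComplex (Q G n)) v) x := by
    apply joined_of_face
    obtain ⟨s, hs, h⟩ := geom_supp x.2
    refine ⟨s, hs, ?_, h⟩
    intro u hu
    by_cases huv : u = v
    · rw [huv]
      exact h v hv
    · exfalso
      apply hu
      simp only [vtx]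
      rw [Pi.single_eq_of_ne huv]
  refine Joined.trans ?_ h2
  by_cases hl : v.lev = 0
  · refine (hpair ⟨1, Fin.ofNat (n + 1) 0⟩ ⟨1, Fin.ofNat (n + 1) 1⟩ ?_).trans (hpair _ v ?_)
    · simp only [Fin.ofNat, ne_eq, Fin.mk.injEq]
      rw [Nat.mod_eq_of_lt (by omega : 1 < n + 1)]
      simp
    · rw [hl]
      intro h
      have := congrArg Fin.val h
      simp only [Fin.ofNat] at this
      rw [Nat.mod_eq_of_lt (by omega : 1 < n + 1)] at this
      simp at this
  · apply hpair
    intro h
    apply hl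
    rw [← h]
    apply Fin.ext
    simp [Fin.ofNat]

theorem continuous_ga {G V : Type} [Fintype V] [Group G] [MulAction G V] {K : Cplx V}
    (hK : GInv G K) (g : G) : Continuous (ga hK g) := by
  apply Continuous.subtype_mk
  apply continuous_pi
  intro v
  exact (continuous_apply _).comp continuous_subtype_val

section extension

variable {B I Y G : Type} [Fintype B] [Fintype I] [Fintype Y] [Group G] [Fintype G]
  [PartialOrder Y] [MulAction G Y] (att : I → B → Option Y)

/-- total weight of the new points -/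
noncomputable def mu (x : XP B I Y G → ℝ) : ℝ := ∑ b : B, ∑ g : G, x (XP.bot b g)

open Classical in
/-- retraction to a copy -/
noncomputable def ri (i : I) (x : XP B I Y G → ℝ) : Y → ℝ := fun y =>
  (1 - 2 * mu x) / (1 - mu x) * x (XP.cp i y) +
    2 * ∑ b : B, ∑ g : G, if att i b = some (g⁻¹ • y) then x (XP.bot b g) else 0

theorem supp_comp {P : Type} [PartialOrder P] [Fintype P] {x : P → ℝ}
    (hx : x ∈ geom (orderComplex P)) {v w : P} (hv : x v ≠ 0) (hw : x w ≠ 0) : v ≤ w ∨ w ≤ v := by
  obtain ⟨s, hs, h⟩ := geom_supp hx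
  exact hs.2.total (h v hv) (h w hw)

theorem geom_of_comp {P : Type} [PartialOrder P] [Fintype P] {x : P → ℝ}
    (h0 : ∀ v, 0 ≤ x v) (h1 : ∑ v, x v = 1) (h : ∀ v w, x v ≠ 0 → x w ≠ 0 → v ≤ w ∨ w ≤ v) :
    x ∈ geom (orderComplex P) := by
  classical
  refine ⟨h0, h1, Finset.univ.filter (fun v => x v ≠ 0), ⟨?_, ?_⟩, ?_⟩
  · by_contra hne
    rw [Finset.not_nonempty_iff_eq_empty] at hne
    have : ∑ v, x v = 0 := by
      apply Finset.sum_eq_zero
      intro v _
      by_contra hv
      have : v ∈ Finset.univ.filter (fun v => x v ≠ 0) :=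
        Finset.mem_filter.2 ⟨Finset.mem_univ _, hv⟩
      rw [hne] at this
      simp at this
    rw [h1] at this
    exact one_ne_zero this
  · intro v hv w hw _
    rw [Finset.coe_filter] at hv hw
    exact h v w hv.2 hw.2
  · intro v
    simp

theorem mu_add [PartialOrder (XP B I Y G)] {x : XP B I Y G → ℝ}
    (hx : x ∈ geom (orderComplex (XP B I Y G))) :
    mu x + ∑ i : I, ∑ y : Y, x (XP.cp i y) = 1 := by
  rw [← hx.2.1, XP.sum_eq]
  rfl

/-- points whose support lies in the new points and the copy `i` -/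
def InCopy (i : I) (x : XP B I Y G → ℝ) : Prop := ∀ i' y, i' ≠ i → x (XP.cp i' y) = 0

/-- points whose support meets the new points at most in `g b` -/
def InBot (b : B) (g : G) (x : XP B I Y G → ℝ) : Prop :=
  ∀ b' g', (b', g') ≠ (b, g) → x (XP.bot b' g') = 0

theorem sum_copy {i : I} {x : XP B I Y G → ℝ} (h : InCopy i x) :
    ∑ i : I, ∑ y : Y, x (XP.cp i y) = ∑ y : Y, x (XP.cp i y) := by
  apply Finset.sum_eq_single_of_mem _ (Finset.mem_univ _)
  intro i' _ hi'
  exact Finset.sum_eq_zero (fun y _ => h i' y hi')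

theorem mu_bot {b : B} {g : G} {x : XP B I Y G → ℝ} (h : InBot b g x) :
    mu x = x (XP.bot b g) := by
  rw [mu, ← Fintype.sum_prod_type']
  exact Finset.sum_eq_single_of_mem (b, g) (Finset.mem_univ _) (fun c _ hc => h c.1 c.2 hc)

theorem mu_nonneg [PartialOrder (XP B I Y G)] {x : XP B I Y G → ℝ}
    (hx : x ∈ geom (orderComplex (XP B I Y G))) : 0 ≤ mu x :=
  Finset.sum_nonneg (fun b _ => Finset.sum_nonneg (fun g _ => hx.1 _))

theorem mu_le_one [PartialOrder (XP B I Y G)] {x : XP B I Y G → ℝ}
    (hx : x ∈ geom (orderComplex (XP B I Y G))) : mu x ≤ 1 := by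
  have h1 := mu_add hx
  have h2 : 0 ≤ ∑ i : I, ∑ y : Y, x (XP.cp i y) :=
    Finset.sum_nonneg (fun b _ => Finset.sum_nonneg (fun g _ => hx.1 _))
  linarith

/-- a point with `mu x < 1` in copy `i` has a coordinate in the copy -/
theorem exists_cp [PartialOrder (XP B I Y G)] {x : XP B I Y G → ℝ}
    (hx : x ∈ geom (orderComplex (XP B I Y G))) {i : I} (h : InCopy i x) (hmu : mu x < 1) :
    ∃ y, x (XP.cp i y) ≠ 0 := by
  by_contra hcon
  push Not at hcon
  have h1 := mu_add hx
  rw [sum_copy h, Finset.sum_eq_zero (fun y _ => hcon y)] at h1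
  linarith

section withOrder

theorem att_of_ne {x : XP B I Y G → ℝ}
    (hx : letI := XP.order (G := G) att; x ∈ geom (orderComplex (XP B I Y G))) {b : B} {g : G}
    {i : I} {y : Y}
    (h1 : x (XP.bot b g) ≠ 0) (h2 : x (XP.cp i y) ≠ 0) : ∃ a, att i b = some a ∧ g • a ≤ y := by
  letI := XP.order (G := G) att
  rcases supp_comp hx h1 h2 with h | h
  · exact h
  · exact h.elim

theorem bot_unique {x : XP B I Y G → ℝ}
    (hx : letI := XP.order (G := G) att; x ∈ geom (orderComplex (XP B I Y G))) {b b' : B} {g g' : G}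
    (h1 : x (XP.bot b g) ≠ 0) (h2 : x (XP.bot b' g') ≠ 0) : b = b' ∧ g = g' := by
  letI := XP.order (G := G) att
  rcases supp_comp hx h1 h2 with h | h
  · exact h
  · exact ⟨h.1.symm, h.2.symm⟩

theorem cp_unique {x : XP B I Y G → ℝ}
    (hx : letI := XP.order (G := G) att; x ∈ geom (orderComplex (XP B I Y G))) {i i' : I} {y y' : Y}
    (h1 : x (XP.cp i y) ≠ 0) (h2 : x (XP.cp i' y') ≠ 0) : i = i' ∧ (y ≤ y' ∨ y' ≤ y) := by
  letI := XP.order (G := G) att
  rcases supp_comp hx h1 h2 with h | h
  · exact ⟨h.1, Or.inl h.2⟩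
  · exact ⟨h.1.symm, Or.inr h.2⟩

theorem ri_mem {x : XP B I Y G → ℝ}
    (hx : letI := XP.order (G := G) att; x ∈ geom (orderComplex (XP B I Y G)))
    {i : I} (hi : InCopy i x) (hmu : mu x ≤ 1 / 2) : ri att i x ∈ geom (orderComplex Y) := by
  classical
  letI := XP.order (G := G) att
  have hmu0 := mu_nonneg hx
  have hc : 0 ≤ (1 - 2 * mu x) / (1 - mu x) := div_nonneg (by linarith) (by linarith)
  obtain ⟨y0, hy0⟩ := exists_cp hx hi (by linarith)
  apply geom_of_comp
  · intro y
    unfold ri
    refine add_nonneg (mul_nonneg hc (hx.1 _)) (mul_nonneg (by norm_num) ?_)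
    refine Finset.sum_nonneg (fun b _ => Finset.sum_nonneg (fun g _ => ?_))
    split_ifs
    · exact hx.1 _
    · exact le_rfl
  · unfold ri
    rw [Finset.sum_add_distrib, ← Finset.mul_sum, ← Finset.mul_sum]
    have e1 : ∑ y : Y, x (XP.cp i y) = 1 - mu x := by
      have := mu_add hx
      rw [sum_copy hi] at this
      linarith
    have e2 : ∑ y : Y, ∑ b : B, ∑ g : G, (if att i b = some (g⁻¹ • y) then x (XP.bot b g) else 0) =
        mu x := by
      rw [Finset.sum_comm]
      unfold mu
      apply Finset.sum_congr rfl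
      intro b _
      rw [Finset.sum_comm]
      apply Finset.sum_congr rfl
      intro g _
      by_cases h : x (XP.bot b g) = 0
      · rw [h]
        simp
      · obtain ⟨a, ha, _⟩ := att_of_ne att hx h hy0
        rw [Finset.sum_eq_single_of_mem (g • a) (Finset.mem_univ _)]
        · rw [inv_smul_smul, if_pos ha]
        · intro y _ hy
          rw [if_neg]
          intro h2
          apply hy
          rw [ha] at h2
          injection h2 with h2
          rw [h2, smul_inv_smul]
    rw [e1, e2, div_mul_cancel₀ _ (by linarith)]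
    ring
  · -- comparability of the support
    have key : ∀ y, ri att i x y ≠ 0 → x (XP.cp i y) ≠ 0 ∨
        ∃ b g a, x (XP.bot b g) ≠ 0 ∧ att i b = some a ∧ y = g • a := by
      intro y hy
      by_contra hcon
      push Not at hcon
      apply hy
      unfold ri
      rw [hcon.1, mul_zero, zero_add]
      have : ∑ b : B, ∑ g : G, (if att i b = some (g⁻¹ • y) then x (XP.bot b g) else 0) = 0 := by
        refine Finset.sum_eq_zero (fun b _ => Finset.sum_eq_zero (fun g _ => ?_))
        split_ifs with h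
        · by_contra h2
          exact hcon.2 b g _ h2 h (by rw [smul_inv_smul])
        · rfl
      rw [this, mul_zero]
    intro v w hv hw
    rcases key v hv with h1 | ⟨b, g, a, h1, h2, h3⟩ <;>
      rcases key w hw with h1' | ⟨b', g', a', h1', h2', h3'⟩
    · exact (cp_unique att hx h1 h1').2
    · obtain ⟨a'', ha'', hle⟩ := att_of_ne att hx h1' h1
      rw [h2'] at ha''
      injection ha'' with ha''
      right
      rw [h3', ha'']
      exact hle
    · obtain ⟨a'', ha'', hle⟩ := att_of_ne att hx h1 h1'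
      rw [h2] at ha''
      injection ha'' with ha''
      left
      rw [h3, ha'']
      exact hle
    · obtain ⟨rfl, rfl⟩ := bot_unique att hx h1 h1'
      rw [h2] at h2'
      injection h2' with h2'
      left
      rw [h3, h3', h2']

theorem continuous_mu : Continuous (mu : (XP B I Y G → ℝ) → ℝ) := by
  unfold mu
  fun_prop

end withOrder

end extension

end Pool.Agent.IndexGap
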