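import Mathlib
import Pool.Agent.Lib.MP_6f03fc_co.Extend

/-!
# Extending equivariant maps over the new free orbits: the theorem
-/

set_option linter.unusedSectionVars false
set_option linter.style.haveILetI false

namespace Pool.Agent.IndexGap

variable {B I Y G : Type} [Fintype B] [Fintype I] [Fintype Y] [Group G] [Fintype G]
  [PartialOrder Y] [MulAction G Y] (att : I → B → Option Y)

theorem shift_bot (g : G) (x : XP B I Y G → ℝ) (b : B) (h : G) :
    letI := XP.action (B := B) (I := I) (Y := Y) (G := G)
    shift g x (XP.bot b h) = x (XP.bot b (g⁻¹ * h)) := rfl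

theorem shift_cp (g : G) (x : XP B I Y G → ℝ) (i : I) (y : Y) :
    letI := XP.action (B := B) (I := I) (Y := Y) (G := G)
    shift g x (XP.cp i y) = x (XP.cp i (g⁻¹ • y)) := rfl

theorem mu_shift (g : G) (x : XP B I Y G → ℝ) :
    letI := XP.action (B := B) (I := I) (Y := Y) (G := G)
    mu (shift g x) = mu x := by
  letI := XP.action (B := B) (I := I) (Y := Y) (G := G)
  unfold mu
  apply Finset.sum_congr rfl
  intro b _
  simp only [shift_bot]
  exact Equiv.sum_comp (Equiv.mulLeft g⁻¹) (fun h => x (XP.bot b h))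

theorem ri_shift (g : G) (i : I) (x : XP B I Y G → ℝ) :
    letI := XP.action (B := B) (I := I) (Y := Y) (G := G)
    ri att i (shift g x) = shift g (ri att i x) := by
  classical
  letI := XP.action (B := B) (I := I) (Y := Y) (G := G)
  funext y
  have e : shift g (ri att i x) y = ri att i x (g⁻¹ • y) := rfl
  rw [e]
  unfold ri
  rw [mu_shift, shift_cp]
  congr 2
  apply Finset.sum_congr rfl
  intro b _
  simp only [shift_bot]
  rw [← Equiv.sum_comp (Equiv.mulLeft g⁻¹)
    (fun h => if att i b = some (h⁻¹ • g⁻¹ • y) then x (XP.bot b h) else 0)]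
  apply Finset.sum_congr rfl
  intro h _
  simp only [Equiv.coe_mulLeft, mul_inv_rev, inv_inv, mul_smul, smul_inv_smul]

theorem inCopy_shift (g : G) {i : I} {x : XP B I Y G → ℝ} (h : InCopy i x) :
    letI := XP.action (B := B) (I := I) (Y := Y) (G := G)
    InCopy i (shift g x) := fun i' y hi' => h i' (g⁻¹ • y) hi'

theorem inBot_shift (g : G) {b : B} {k : G} {x : XP B I Y G → ℝ} (h : InBot b k x) :
    letI := XP.action (B := B) (I := I) (Y := Y) (G := G)
    InBot b (g * k) (shift g x) := by
  letI := XP.action (B := B) (I := I) (Y := Y) (G := G)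
  intro b' g' hne
  rw [shift_bot]
  apply h
  intro h2
  apply hne
  rw [Prod.mk.injEq] at h2 ⊢
  exact ⟨h2.1, by rw [← h2.2, mul_inv_cancel_left]⟩

/-- equivariant maps extend over the new orbits -/
theorem exists_extension [DecidableEq G] [Nonempty I] {n : ℕ} (hn : 1 ≤ n)
    (F : C(geom (orderComplex Y), geom (orderComplex (Q G n))))
    (hF : ∀ (g : G) (x y : geom (orderComplex Y)),
      (y : Y → ℝ) = shift g (x : Y → ℝ) → (F y : Q G n → ℝ) = shift g (F x : Q G n → ℝ)) :
    letI := XP.order (G := G) att
    letI := XP.action (B := B) (I := I) (Y := Y) (G := G)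
    ExistsTopMap G (orderComplex (XP B I Y G)) (orderComplex (Q G n)) := by
  classical
  letI ord := XP.order (G := G) att
  letI acn := XP.action (B := B) (I := I) (Y := Y) (G := G)
  -- paths
  have hpath : ∀ (i : I) (b : B), ∃ γ : C(ℝ, geom (orderComplex (Q G n))), γ 0 = vt G n 0 ∧
      ∀ a, att i b = some a → γ 1 = F (vtx _ a) := by
    intro i b
    rcases h : att i b with _ | a
    · exact ⟨ContinuousMap.const _ (vt G n 0), rfl, by simp⟩
    · obtain ⟨γ⟩ := joined_EG hn (F (vtx _ a))
      refine ⟨⟨γ.extend, γ.continuous_extend⟩, by simp, ?_⟩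
      intro a' ha'
      injection ha' with ha'
      rw [← ha']
      simp
  choose γ hγ0 hγ1 using hpath
  -- the pieces
  set A : I → Set (geom (orderComplex (XP B I Y G))) := fun i =>
    {x | InCopy i (x : XP B I Y G → ℝ) ∧ mu (x : XP B I Y G → ℝ) ≤ 1 / 2} with hA
  set D : I × B × G → Set (geom (orderComplex (XP B I Y G))) := fun t =>
    {x | InCopy t.1 (x : XP B I Y G → ℝ) ∧ InBot t.2.1 t.2.2 (x : XP B I Y G → ℝ) ∧
      1 / 2 ≤ mu (x : XP B I Y G → ℝ)} with hD
  have hmuc : Continuous (fun x : geom (orderComplex (XP B I Y G)) =>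
      mu (x : XP B I Y G → ℝ)) := continuous_mu.comp continuous_subtype_val
  have hcopyc : ∀ i, IsClosed {x : geom (orderComplex (XP B I Y G)) |
      InCopy i (x : XP B I Y G → ℝ)} := by
    intro i
    have : {x : geom (orderComplex (XP B I Y G)) | InCopy i (x : XP B I Y G → ℝ)} =
        ⋂ i', ⋂ y, {x : geom (orderComplex (XP B I Y G)) |
          i' ≠ i → (x : XP B I Y G → ℝ) (XP.cp i' y) = 0} := by
      ext x
      simp only [InCopy, Set.mem_ofPred_eq, Set.mem_iInter]
    rw [this]
    refine isClosed_iInter (fun i' => isClosed_iInter (fun y => ?_))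
    by_cases h : i' = i
    · simp [h]
    · simp only [ne_eq, h, not_false_eq_true, forall_true_left]
      exact isClosed_eq ((continuous_apply _).comp continuous_subtype_val) continuous_const
  have hbotc : ∀ b g, IsClosed {x : geom (orderComplex (XP B I Y G)) |
      InBot b g (x : XP B I Y G → ℝ)} := by
    intro b g
    have : {x : geom (orderComplex (XP B I Y G)) | InBot b g (x : XP B I Y G → ℝ)} =
        ⋂ b', ⋂ g', {x : geom (orderComplex (XP B I Y G)) |
          (b', g') ≠ (b, g) → (x : XP B I Y G → ℝ) (XP.bot b' g') = 0} := by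
      ext x
      simp only [InBot, Set.mem_ofPred_eq, Set.mem_iInter]
    rw [this]
    refine isClosed_iInter (fun b' => isClosed_iInter (fun g' => ?_))
    by_cases h : (b', g') = (b, g)
    · have : {x : geom (orderComplex (XP B I Y G)) |
          (b', g') ≠ (b, g) → (x : XP B I Y G → ℝ) (XP.bot b' g') = 0} = Set.univ := by
        ext x
        simp only [Set.mem_ofPred_eq, Set.mem_univ, iff_true]
        intro h2
        exact absurd h h2
      rw [this]
      exact isClosed_univ
    · have : {x : geom (orderComplex (XP B I Y G)) |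
          (b', g') ≠ (b, g) → (x : XP B I Y G → ℝ) (XP.bot b' g') = 0} =
          {x : geom (orderComplex (XP B I Y G)) |
            (x : XP B I Y G → ℝ) (XP.bot b' g') = 0} := by
        ext x
        simp only [Set.mem_ofPred_eq]
        exact ⟨fun h2 => h2 h, fun h2 _ => h2⟩
      rw [this]
      exact isClosed_eq ((continuous_apply _).comp continuous_subtype_val) continuous_const
  have hAc : ∀ i, IsClosed (A i) := fun i =>
    (hcopyc i).inter (isClosed_le hmuc continuous_const)
  have hDc : ∀ t, IsClosed (D t) := fun t =>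
    (hcopyc t.1).inter ((hbotc t.2.1 t.2.2).inter (isClosed_le continuous_const hmuc))
  -- the maps on the pieces
  have hric : ∀ i, Continuous (fun x : A i => ri att i ((x : geom (orderComplex (XP B I Y G))) :
      XP B I Y G → ℝ)) := by
    intro i
    have hc : Continuous (fun x : A i => ((x : geom (orderComplex (XP B I Y G))) :
        XP B I Y G → ℝ)) := continuous_subtype_val.comp continuous_subtype_val
    have hm : Continuous (fun x : A i => mu ((x : geom (orderComplex (XP B I Y G))) :
        XP B I Y G → ℝ)) := continuous_mu.comp hc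
    apply continuous_pi
    intro y
    unfold ri
    refine Continuous.add (Continuous.mul ?_ ((continuous_apply _).comp hc)) ?_
    · apply Continuous.div
      · exact continuous_const.sub (continuous_const.mul hm)
      · exact continuous_const.sub hm
      · intro x
        have := x.2.2
        intro h0
        linarith
    · refine continuous_const.mul ?_
      refine continuous_finsetSum _ (fun b _ => continuous_finsetSum _ (fun g _ => ?_))
      split_ifs
      · exact (continuous_apply _).comp hc
      · exact continuous_const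
  set φA : ∀ i, C(A i, geom (orderComplex (Q G n))) := fun i =>
    ⟨fun x => F ⟨ri att i x.1.1, ri_mem att x.1.2 x.2.1 x.2.2⟩,
      F.continuous.comp (Continuous.subtype_mk (hric i) _)⟩ with hφA
  set φD : ∀ t, C(D t, geom (orderComplex (Q G n))) := fun t =>
    ⟨fun x => ga (gInvQ G n) t.2.2 (γ t.1 t.2.1 (2 * (1 - mu x.1.1))),
      (continuous_ga _ _).comp ((γ t.1 t.2.1).continuous.comp
        (continuous_const.mul (continuous_const.sub (hmuc.comp continuous_subtype_val))))⟩ with hφD
  set C : I ⊕ (I × B × G) → Set (geom (orderComplex (XP B I Y G))) := Sum.elim A D with hC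
  set φ : ∀ t, C(C t, geom (orderComplex (Q G n))) := fun t =>
    match t with
    | Sum.inl i => φA i
    | Sum.inr t => φD t with hφ
  -- agreements
  have agAA : ∀ i j x (hi : x ∈ A i) (hj : x ∈ A j), φA i ⟨x, hi⟩ = φA j ⟨x, hj⟩ := by
    intro i j x hi hj
    have hij : i = j := by
      obtain ⟨y, hy⟩ := exists_cp x.2 hi.1 (by linarith [hi.2])
      by_contra hne
      exact hy (hj.1 i y hne)
    subst hij
    rfl
  have agAD : ∀ i t x (hi : x ∈ A i) (hj : x ∈ D t), φA i ⟨x, hi⟩ = φD t ⟨x, hj⟩ := by
    rintro i ⟨j, b, g⟩ x hi hj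
    have hmu : mu (x : XP B I Y G → ℝ) = 1 / 2 := le_antisymm hi.2 hj.2.2
    obtain ⟨y, hy⟩ := exists_cp x.2 hi.1 (by linarith [hi.2])
    have hij : i = j := by
      by_contra hne
      exact hy (hj.1 i y hne)
    subst hij
    have hb : (x : XP B I Y G → ℝ) (XP.bot b g) = 1 / 2 := by
      rw [← hmu, mu_bot hj.2.1]
    have hb0 : (x : XP B I Y G → ℝ) (XP.bot b g) ≠ 0 := by
      rw [hb]; norm_num
    obtain ⟨a, ha, hle⟩ := att_of_ne att x.2 hb0 hy
    -- the retraction is the vertex `g a`
    have hri : ri att i (x : XP B I Y G → ℝ) = (vtx (orderComplex Y) (g • a) : Y → ℝ) := by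
      funext u
      unfold ri
      rw [hmu]
      have e1 : (1 - 2 * (1 / 2 : ℝ)) / (1 - 1 / 2) = 0 := by norm_num
      rw [e1, zero_mul, zero_add]
      rw [← Fintype.sum_prod_type' (f := fun b' g' => if att i b' = some (g'⁻¹ • u) then
        (x : XP B I Y G → ℝ) (XP.bot b' g') else 0)]
      rw [Finset.sum_eq_single_of_mem (b, g) (Finset.mem_univ _)]
      · simp only [ha, hb, vtx]
        by_cases hu : u = g • a
        · rw [hu, inv_smul_smul, if_pos rfl, Pi.single_eq_same]
          norm_num
        · rw [Pi.single_eq_of_ne hu, if_neg, mul_zero]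
          intro h2
          injection h2 with h2
          apply hu
          rw [h2, smul_inv_smul]
      · intro c _ hc
        split_ifs
        · exact hj.2.1 c.1 c.2 hc
        · rfl
    have e2 : φA i ⟨x, hi⟩ = F (vtx (orderComplex Y) (g • a)) := by
      rw [hφA]
      change F _ = F _
      congr 1
      exact Subtype.ext hri
    have e3 : φD (i, b, g) ⟨x, hj⟩ = ga (gInvQ G n) g (F (vtx (orderComplex Y) a)) := by
      rw [hφD]
      change ga (gInvQ G n) g (γ i b (2 * (1 - mu (x : XP B I Y G → ℝ)))) = _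
      rw [hmu]
      have : (2 * (1 - 1 / 2) : ℝ) = 1 := by norm_num
      rw [this, hγ1 i b a ha]
    rw [e2, e3]
    apply Subtype.ext
    apply hF
    funext u
    change (Pi.single (g • a) (1 : ℝ) : Y → ℝ) u = (Pi.single a (1 : ℝ) : Y → ℝ) (g⁻¹ • u)
    by_cases hu : u = g • a
    · rw [hu, inv_smul_smul, Pi.single_eq_same, Pi.single_eq_same]
    · rw [Pi.single_eq_of_ne hu, Pi.single_eq_of_ne]
      intro h2
      apply hu
      rw [← h2, smul_inv_smul]
  have agDD : ∀ s t x (hi : x ∈ D s) (hj : x ∈ D t), φD s ⟨x, hi⟩ = φD t ⟨x, hj⟩ := by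
    rintro ⟨i, b, g⟩ ⟨j, b', g'⟩ x hi hj
    have hb : (x : XP B I Y G → ℝ) (XP.bot b g) ≠ 0 := by
      have := hi.2.2
      rw [mu_bot hi.2.1] at this
      intro h0
      rw [h0] at this
      norm_num at this
    have hb' : (x : XP B I Y G → ℝ) (XP.bot b' g') ≠ 0 := by
      have := hj.2.2
      rw [mu_bot hj.2.1] at this
      intro h0
      rw [h0] at this
      norm_num at this
    obtain ⟨rfl, rfl⟩ := bot_unique att x.2 hb hb'
    by_cases hij : i = j
    · subst hij
      rfl
    · have hmu : mu (x : XP B I Y G → ℝ) = 1 := by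
        have h1 := mu_add x.2
        rw [sum_copy hi.1] at h1
        rw [Finset.sum_eq_zero (fun y _ => hj.1 i y hij)] at h1
        linarith
      rw [hφD]
      change ga (gInvQ G n) g (γ i b (2 * (1 - mu (x : XP B I Y G → ℝ)))) =
        ga (gInvQ G n) g (γ j b (2 * (1 - mu (x : XP B I Y G → ℝ))))
      rw [hmu, sub_self, mul_zero, hγ0, hγ0]
  obtain ⟨Φ, hΦ⟩ := glue C (by rintro (i | t); exacts [hAc i, hDc t]) (by
      intro x
      -- the copy
      have hcopy : ∃ i, InCopy i (x : XP B I Y G → ℝ) := by
        by_cases h : ∃ i y, (x : XP B I Y G → ℝ) (XP.cp i y) ≠ 0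
        · obtain ⟨i, y, hy⟩ := h
          refine ⟨i, fun i' y' hne => ?_⟩
          by_contra h2
          exact hne (cp_unique att x.2 h2 hy).1
        · push Not at h
          exact ⟨Classical.arbitrary I, fun i' y' _ => h i' y'⟩
      obtain ⟨i, hi⟩ := hcopy
      rcases le_total (mu (x : XP B I Y G → ℝ)) (1 / 2) with h | h
      · exact ⟨Sum.inl i, hi, h⟩
      · have hbot : ∃ b g, (x : XP B I Y G → ℝ) (XP.bot b g) ≠ 0 := by
          by_contra hcon
          push Not at hcon
          have : mu (x : XP B I Y G → ℝ) = 0 :=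
            Finset.sum_eq_zero (fun b _ => Finset.sum_eq_zero (fun g _ => hcon b g))
          rw [this] at h
          norm_num at h
        obtain ⟨b, g, hbg⟩ := hbot
        refine ⟨Sum.inr (i, b, g), hi, ?_, h⟩
        intro b' g' hne
        by_contra h2
        obtain ⟨rfl, rfl⟩ := bot_unique att x.2 h2 hbg
        exact hne rfl) φ (by
      rintro (i | s) (j | t) x hi hj
      · exact agAA i j x hi hj
      · exact agAD i t x hi hj
      · exact (agAD j s x hj hi).symm
      · exact agDD s t x hi hj)
  refine ⟨Φ, ?_⟩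
  intro g x y hxy
  -- find the piece of `x`
  have hcov : (∃ i, x ∈ A i) ∨ ∃ t, x ∈ D t := by
    have hcopy : ∃ i, InCopy i (x : XP B I Y G → ℝ) := by
      by_cases h : ∃ i y, (x : XP B I Y G → ℝ) (XP.cp i y) ≠ 0
      · obtain ⟨i, y, hy⟩ := h
        refine ⟨i, fun i' y' hne => ?_⟩
        by_contra h2
        exact hne (cp_unique att x.2 h2 hy).1
      · push Not at h
        exact ⟨Classical.arbitrary I, fun i' y' _ => h i' y'⟩
    obtain ⟨i, hi⟩ := hcopy
    rcases le_total (mu (x : XP B I Y G → ℝ)) (1 / 2) with h | h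
    · exact Or.inl ⟨i, hi, h⟩
    · have hbot : ∃ b g, (x : XP B I Y G → ℝ) (XP.bot b g) ≠ 0 := by
        by_contra hcon
        push Not at hcon
        have : mu (x : XP B I Y G → ℝ) = 0 :=
          Finset.sum_eq_zero (fun b _ => Finset.sum_eq_zero (fun g _ => hcon b g))
        rw [this] at h
        norm_num at h
      obtain ⟨b, g, hbg⟩ := hbot
      refine Or.inr ⟨(i, b, g), hi, ?_, h⟩
      intro b' g' hne
      by_contra h2
      obtain ⟨rfl, rfl⟩ := bot_unique att x.2 h2 hbg
      exact hne rfl
  rcases hcov with ⟨i, hi⟩ | ⟨⟨i, b, k⟩, hi⟩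
  · have hy : y ∈ A i := by
      refine ⟨?_, ?_⟩
      · rw [hxy]
        exact inCopy_shift g hi.1
      · rw [hxy, mu_shift]
        exact hi.2
    rw [hΦ (Sum.inl i) x hi, hΦ (Sum.inl i) y hy]
    change (F ⟨ri att i y.1, _⟩ : Q G n → ℝ) = shift g (F ⟨ri att i x.1, _⟩ : Q G n → ℝ)
    apply hF
    change ri att i y.1 = shift g (ri att i x.1)
    rw [hxy, ri_shift]
  · have hy : y ∈ D (i, b, g * k) := by
      refine ⟨?_, ?_, ?_⟩
      · rw [hxy]
        exact inCopy_shift g hi.1
      · rw [hxy]
        exact inBot_shift g hi.2.1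
      · rw [hxy, mu_shift]
        exact hi.2.2
    rw [hΦ (Sum.inr (i, b, k)) x hi, hΦ (Sum.inr (i, b, g * k)) y hy]
    change (ga (gInvQ G n) (g * k) (γ i b (2 * (1 - mu y.1))) : Q G n → ℝ) =
      shift g (ga (gInvQ G n) k (γ i b (2 * (1 - mu x.1))) : Q G n → ℝ)
    rw [hxy, mu_shift]
    exact (shift_shift g k _).symm

end Pool.Agent.IndexGap
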