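import Mathlib
import Pool.Agent.Lib.MP_6f03fc_co.Extend2

/-!
# The index gap theorem
-/

set_option linter.unusedSectionVars false
set_option linter.style.haveILetI false

namespace Pool.Agent.IndexGap

theorem ExistsTopMap.comp {G : Type} [Group G] {U V W : Type} [Fintype U] [Fintype V] [Fintype W]
    [MulAction G U] [MulAction G V] [MulAction G W] {K : Cplx U} {L : Cplx V} {M : Cplx W}
    (h1 : ExistsTopMap G K L) (h2 : ExistsTopMap G L M) : ExistsTopMap G K M := by
  obtain ⟨f1, h1⟩ := h1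
  obtain ⟨f2, h2⟩ := h2
  exact ⟨f2.comp f1, fun g x y hxy => h2 g _ _ (h1 g x y hxy)⟩

/-- a simplicial map induces a continuous map of geometric realizations -/
theorem ExistsSimpMap.top {G : Type} [Group G] {V W : Type} [Fintype V] [Fintype W]
    [MulAction G V] [MulAction G W] [DecidableEq W] {K : Cplx V} {L : Cplx W}
    (h : ExistsSimpMap G K L) : ExistsTopMap G K L := by
  obtain ⟨φ, hφ, hs⟩ := h
  have hmem : ∀ x : geom K, (fun w => ∑ v, if φ v = w then (x : V → ℝ) v else 0) ∈ geom L := by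
    intro x
    refine geom_of ?_ ?_ ?_
    · intro w
      refine Finset.sum_nonneg (fun v _ => ?_)
      split_ifs
      · exact x.2.1 v
      · exact le_rfl
    · rw [Finset.sum_comm]
      simp only [Finset.sum_ite_eq, Finset.mem_univ, if_true]
      exact x.2.2.1
    · obtain ⟨s, hsf, hsup⟩ := geom_supp x.2
      refine ⟨s.image φ, hs s hsf, fun w hw => ?_⟩
      obtain ⟨v, _, hv⟩ := Finset.exists_ne_zero_of_sum_ne_zero hw
      split_ifs at hv with hvw
      · rw [← hvw]
        exact Finset.mem_image_of_mem _ (hsup v hv)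
      · exact absurd rfl hv
  refine ⟨⟨fun x => ⟨_, hmem x⟩, ?_⟩, ?_⟩
  · apply Continuous.subtype_mk
    apply continuous_pi
    intro w
    refine continuous_finsetSum _ (fun v _ => ?_)
    split_ifs
    · exact (continuous_apply v).comp continuous_subtype_val
    · exact continuous_const
  · intro g x y hxy
    funext w
    change ∑ v, (if φ v = w then (y : V → ℝ) v else 0) =
      ∑ v, (if φ v = g⁻¹ • w then (x : V → ℝ) v else 0)
    rw [hxy]
    rw [← Equiv.sum_comp (MulAction.toPerm (g⁻¹ : G))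
      (fun v => if φ v = g⁻¹ • w then (x : V → ℝ) v else 0)]
    apply Finset.sum_congr rfl
    intro v _
    simp only [MulAction.toPerm_apply, hφ, smul_left_cancel_iff]
    rfl

theorem ExistsTopMap.refl' (G : Type) [Group G] {V : Type} [Fintype V] [MulAction G V]
    (K : Cplx V) : ExistsTopMap G K K :=
  ⟨ContinuousMap.id _, fun _ _ _ h => h⟩

/-- the inductive construction -/
theorem stage (G : Type) [Group G] [Fintype G] [DecidableEq G] [Nontrivial G] {n : ℕ}
    (hn : 1 ≤ n) (t : ℕ) :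
    ∃ (P : Type) (_ : Fintype P) (_ : PartialOrder P) (_ : MulAction G P),
      (∀ (g : G) (a b : P), a ≤ b → g • a ≤ g • b) ∧
      (∀ (g : G) (a : P), g • a = a → g = 1) ∧
      (∃ ι : Q G n → P, (∀ (g : G) v, ι (g • v) = g • ι v) ∧ ∀ v w, v ≤ w → ι v ≤ ι w) ∧
      (∃ (γ : P → G) (ρ : P → Fin (n + t + 1)), (∀ g p, γ (g • p) = g * γ p) ∧
        (∀ (g : G) p, ρ (g • p) = ρ p) ∧ ∀ p q, p < q → ρ p < ρ q) ∧
      ExistsTopMap G (orderComplex P) (orderComplex (Q G n)) ∧
      ¬ SM G P (n + t) := by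
  induction t with
  | zero =>
    refine ⟨Q G n, inferInstance, inferInstance, inferInstance, Q.smul_mono, ?_,
      ⟨id, fun _ _ => rfl, fun _ _ h => h⟩,
      ⟨Q.grp, Q.lev, fun _ _ => rfl, fun _ _ => rfl, ?_⟩, ExistsTopMap.refl' _ _, ?_⟩
    · intro g a h
      have := congrArg Q.grp h
      change g * a.grp = a.grp at this
      exact mul_eq_right.1 this
    · intro p q hpq
      rcases hpq.le with h | h
      · exact absurd h hpq.ne
      · exact h
    · intro h
      obtain ⟨k, rfl⟩ : ∃ k, n = k + 1 := ⟨n - 1, by omega⟩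
      have h2 := (existsSimpMap_iff G (Q G (k + 1)) k).2 h
      exact dold G (Nat.lt_succ_self k) h2.top
  | succ t ih =>
    obtain ⟨Y, iF, iO, iA, hmono, hfree, ⟨ι, hι1, hι2⟩, ⟨γ, ρ, hγ, hρ, hlt⟩, htop, hno⟩ := ih
    letI oX := XP.order (G := G) (attach G Y (n + t))
    letI aX := XP.action (B := BB G Y (n + t)) (I := II G Y (n + t)) (Y := Y) (G := G)
    refine ⟨XP (BB G Y (n + t)) (II G Y (n + t)) Y G, inferInstance, oX, aX, ?_, ?_, ?_, ?_, ?_,
      not_SM_step G Y (n + t) hno⟩
    · rintro g (⟨b, h⟩ | ⟨i, y⟩) (⟨b', h'⟩ | ⟨i', y'⟩) hle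
      · obtain ⟨h1, h2⟩ := hle
        rw [h1, h2]
      · obtain ⟨a, h1, h2⟩ := hle
        refine ⟨a, h1, ?_⟩
        rw [mul_smul]
        exact hmono g _ _ h2
      · exact hle.elim
      · exact ⟨hle.1, hmono g _ _ hle.2⟩
    · rintro g (⟨b, h⟩ | ⟨i, y⟩) heq
      · have : (XP.bot b (g * h) : XP (BB G Y (n + t)) (II G Y (n + t)) Y G) = XP.bot b h := heq
        injection this with _ h2
        exact mul_eq_right.1 h2
      · have : (XP.cp i (g • y) : XP (BB G Y (n + t)) (II G Y (n + t)) Y G) = XP.cp i y := heq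
        injection this with _ h2
        exact hfree g y h2
    · obtain ⟨i0⟩ := (inferInstance : Nonempty (II G Y (n + t)))
      refine ⟨fun v => XP.cp i0 (ι v), ?_, ?_⟩
      · intro g v
        change XP.cp i0 (ι (g • v)) = XP.cp i0 (g • ι v)
        rw [hι1]
      · intro v w h
        exact ⟨rfl, hι2 v w h⟩
    · refine ⟨fun x => match x with
        | XP.bot _ g => g
        | XP.cp _ y => γ y, fun x => match x with
        | XP.bot _ _ => 0
        | XP.cp _ y => (ρ y).succ, ?_, ?_, ?_⟩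
      · rintro g (⟨b, h⟩ | ⟨i, y⟩)
        · rfl
        · exact hγ g y
      · rintro g (⟨b, h⟩ | ⟨i, y⟩)
        · rfl
        · exact congrArg Fin.succ (hρ g y)
      · rintro (⟨b, h⟩ | ⟨i, y⟩) (⟨b', h'⟩ | ⟨i', y'⟩) hl
        · exfalso
          obtain ⟨h1, h2⟩ := hl.le
          apply hl.ne
          rw [h1, h2]
        · exact Fin.succ_pos _
        · exact hl.le.elim
        · obtain ⟨h1, h2⟩ := hl.le
          apply Fin.succ_lt_succ_iff.2
          apply hlt
          rw [lt_iff_le_and_ne]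
          refine ⟨h2, ?_⟩
          intro h3
          apply hl.ne
          rw [h1, h3]
    · obtain ⟨F, hF⟩ := htop
      exact exists_extension (attach G Y (n + t)) hn F hF

/-- For every nontrivial finite group `G` and all `m > n ≥ 1` there is a finite free `G`-poset
`P` with `sind ΔP = m` and `ind ΔP = n`. -/
theorem index_gap (G : Type) [Group G] [Fintype G] [DecidableEq G] [Nontrivial G] (m n : ℕ)
    (hn : 1 ≤ n) (hm : n ≤ m) :
    ∃ (P : Type) (_ : Fintype P) (_ : PartialOrder P) (_ : MulAction G P),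
      (∀ (g : G) (a b : P), a ≤ b → g • a ≤ g • b) ∧
      (∀ (g : G) (a : P), g • a = a → g = 1) ∧
      SimpIndexEq G (orderComplex P) m ∧ TopIndexEq G (orderComplex P) n := by
  obtain ⟨t, rfl⟩ : ∃ t, m = n + t := ⟨m - n, by omega⟩
  obtain ⟨P, iF, iO, iA, hmono, hfree, ⟨ι, hι1, hι2⟩, ⟨γ, ρ, hγ, hρ, hlt⟩, htop, hno⟩ :=
    stage G hn t
  refine ⟨P, iF, iO, iA, hmono, hfree, ⟨?_, ?_⟩, ⟨htop, ?_⟩⟩
  · apply (existsSimpMap_iff G P (n + t)).2
    exact ⟨γ, ρ, hγ, hρ, fun p q hpq h => absurd h (hlt p q hpq).ne⟩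
  · intro k hk
    by_contra hlt'
    push Not at hlt'
    apply hno
    exact SM.mono (by omega) ((existsSimpMap_iff G P k).1 hk)
  · intro k hk
    by_contra hlt'
    push Not at hlt'
    have h1 : ExistsTopMap G (orderComplex (Q G n)) (orderComplex P) := by
      classical
      apply ExistsSimpMap.top
      refine ⟨ι, hι1, ?_⟩
      intro s hs
      refine ⟨hs.1.image _, ?_⟩
      intro x hx y hy _
      rw [Finset.coe_image] at hx hy
      obtain ⟨p, hp, rfl⟩ := hx
      obtain ⟨q, hq, rfl⟩ := hy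
      rcases hs.2.total hp hq with h | h
      · exact Or.inl (hι2 _ _ h)
      · exact Or.inr (hι2 _ _ h)
    exact dold G hlt' (h1.comp hk)

end Pool.Agent.IndexGap
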